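import Pool.Agent.MP_8e9e20_co.AE.Cover

/-!
[AE-A] all dimensions.
Claim: for every `d` there is `n` with `Conf d n` and `2 d - 6 d^(3/4) ≤ n`. Strong induction on `d`.
* `d ≤ 256`: `n = d` (`Conf.basis`): `2d - 6 d^(3/4) ≤ d` iff `d^(1/4) ≤ 6`, true for `d ≤ 1296`.
* `d > 256 > 87`: let `D_t` be the dimensions of `conf_cover` (`D_2 = 87`), strictly increasing and unbounded,
  `D_(t+1) ≤ 16 D_t` (from `4 D(s) = s^4+s^3+2s^2-2s+4`). Let `t ≥ 2` be maximal with `D_t ≤ d`; `d ≤ 16 D_t`.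
  By induction applied to `d - D_t` and `Conf.add`: `n = n_t + n'` with
  `2d - n ≤ (2 D_t - n_t) + 6 (d-D_t)^(3/4)`.
  By Bernoulli (`(1-h)^(3/4) ≤ 1 - (3/4) h`, `h = D_t/d`): `(d-D_t)^(3/4) ≤ d^(3/4) - (3/4) d^(-1/4) D_t`,
  and `d^(-1/4) ≥ (16 D_t)^(-1/4) = D_t^(-1/4)/2`, so the gain is `≥ 6*(3/8) D_t^(3/4) = (9/4) D_t^(3/4)
  ≥ (9/4) (s^4/4)^(3/4) = (9/4) s^3 / 4^(3/4) ≥ 0.79 s^3` (`4^(3/4) = 2√2 < 2.8285`), while
  `2 D_t - n_t = (s^3+2s^2-2s+4)/2 ≤ 0.72 s^3` for `s ≥ 4`.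
-/

namespace AE

theorem A_w (d : ℝ) (hd : 0 ≤ d) : ∃ w : ℝ, 0 ≤ w ∧ w ^ 4 = d ∧ d ^ (3 / 4 : ℝ) = w ^ 3 := by
  refine ⟨d ^ (1 / 4 : ℝ), Real.rpow_nonneg hd _, ?_, ?_⟩
  · rw [← Real.rpow_natCast, ← Real.rpow_mul hd]
    norm_num
  · rw [← Real.rpow_natCast, ← Real.rpow_mul hd]
    norm_num

theorem A_P2 {d : ℕ} (hd : 87 ≤ d) : ∃ t : ℕ, 2 ≤ t ∧
    (2 ^ t) ^ 4 + (2 ^ t) ^ 3 + 2 * (2 ^ t) ^ 2 + 4 ≤ 4 * d + 2 * 2 ^ t ∧
    4 * d + 2 * 2 ^ (t + 1) < (2 ^ (t + 1)) ^ 4 + (2 ^ (t + 1)) ^ 3 + 2 * (2 ^ (t + 1)) ^ 2 + 4 := by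
  by_contra hcon
  push Not at hcon
  have hall : ∀ t : ℕ, 2 ≤ t → (2 ^ t) ^ 4 + (2 ^ t) ^ 3 + 2 * (2 ^ t) ^ 2 + 4 ≤ 4 * d + 2 * 2 ^ t := by
    intro t ht
    induction t, ht using Nat.le_induction with
    | base => norm_num; omega
    | succ t ht ih => exact hcon t ht ih
  have h1 := hall d (by omega)
  have h2 : d < 2 ^ d := Nat.lt_two_pow_self
  set s := 2 ^ d with hs
  have h3 : s ^ 2 ≤ s ^ 4 := Nat.pow_le_pow_right (by omega) (by norm_num)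
  nlinarith

theorem A_ineq {x D S : ℝ} (hS : 4 ≤ S) (hD : 4 * D = S ^ 4 + S ^ 3 + 2 * S ^ 2 - 2 * S + 4)
    (hx : D ≤ x) (hx' : x ≤ 16 * D) :
    6 * (x - D) ^ (3 / 4 : ℝ) + (S ^ 3 + 2 * S ^ 2 - 2 * S + 4) / 2 ≤ 6 * x ^ (3 / 4 : ℝ) := by
  have hS0 : (0 : ℝ) < S := by linarith
  have hD0 : 0 < D := by
    nlinarith [pow_pos hS0 4, pow_pos hS0 3, pow_pos hS0 2, mul_nonneg hS0.le (sub_nonneg.2 hS)]
  have hx0 : 0 < x := by linarith
  obtain ⟨w, hw0, hw4, hw3⟩ := A_w x hx0.le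
  have hwpos : 0 < w := by
    rcases hw0.eq_or_lt with h | h
    · rw [← h] at hw4; norm_num at hw4; linarith
    · exact h
  have hB : (1 + (-(D / x))) ^ (3 / 4 : ℝ) ≤ 1 + 3 / 4 * (-(D / x)) := by
    apply rpow_one_add_le_one_add_mul_self
    · have : D / x ≤ 1 := by rw [div_le_one hx0]; exact hx
      linarith
    · norm_num
    · norm_num
  have h0 : 0 ≤ 1 + (-(D / x)) := by
    have : D / x ≤ 1 := by rw [div_le_one hx0]; exact hx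
    linarith
  have e1 : (x - D) ^ (3 / 4 : ℝ) = w ^ 3 * (1 + (-(D / x))) ^ (3 / 4 : ℝ) := by
    rw [← hw3, ← Real.mul_rpow hx0.le h0]
    congr 1
    field_simp
    ring
  have h1 : (x - D) ^ (3 / 4 : ℝ) ≤ w ^ 3 - 3 / 4 * (D / w) := by
    rw [e1]
    refine le_trans (mul_le_mul_of_nonneg_left hB (by positivity)) (le_of_eq ?_)
    rw [← hw4]
    field_simp
    ring
  have h2 : S ^ 3 + 2 * S ^ 2 - 2 * S + 4 ≤ 36 / 25 * S ^ 3 := by
    nlinarith [mul_nonneg (sub_nonneg.2 hS) (sq_nonneg S), mul_nonneg (sub_nonneg.2 hS) (sq_nonneg (S - 4)),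
      mul_nonneg (sub_nonneg.2 hS) (sub_nonneg.2 hS)]
  have h3 : S ^ 4 ≤ 4 * D := by
    nlinarith [pow_pos hS0 3, pow_pos hS0 2, mul_nonneg hS0.le (sub_nonneg.2 hS)]
  have h4 : 36 / 25 * (w * S ^ 3) ≤ 9 * D := by
    have h5 : (36 / 25 * (w * S ^ 3)) ^ 4 ≤ (9 * D) ^ 4 := by
      have e2 : (36 / 25 * (w * S ^ 3)) ^ 4 = (36 / 25) ^ 4 * (w ^ 4 * (S ^ 4) ^ 3) := by ring
      have e3 : w ^ 4 * (S ^ 4) ^ 3 ≤ (16 * D) * (4 * D) ^ 3 := by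
        apply mul_le_mul
        · rw [hw4]; exact hx'
        · exact pow_le_pow_left₀ (by positivity) h3 3
        · positivity
        · positivity
      rw [e2]
      nlinarith [pow_pos hD0 4]
    exact le_of_pow_le_pow_left₀ (by norm_num) (by positivity) h5
  have h6 : (S ^ 3 + 2 * S ^ 2 - 2 * S + 4) / 2 ≤ 9 / 2 * (D / w) := by
    rw [mul_div_assoc', le_div_iff₀ hwpos]
    nlinarith [mul_le_mul_of_nonneg_right h2 hw0]
  rw [hw3]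
  nlinarith

theorem conf_all (d : ℕ) : ∃ n : ℕ, Conf d n ∧ 2 * (d : ℝ) - 6 * (d : ℝ) ^ (3 / 4 : ℝ) ≤ n := by
  induction d using Nat.strong_induction_on with
  | _ d ih =>
  by_cases hd : 87 ≤ d
  · obtain ⟨t, ht, hP, hN⟩ := A_P2 hd
    obtain ⟨D, n, hC, hD, hn⟩ := conf_cover t (by omega)
    set S : ℝ := 2 ^ t with hS
    have hS4 : (4 : ℝ) ≤ S := by
      rw [hS]
      calc (4 : ℝ) = 2 ^ 2 := by norm_num
        _ ≤ 2 ^ t := pow_le_pow_right₀ (by norm_num) ht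
    have hS0 : (0 : ℝ) < S := by linarith
    have hP' : S ^ 4 + S ^ 3 + 2 * S ^ 2 + 4 ≤ 4 * (d : ℝ) + 2 * S := by
      rw [hS]; exact_mod_cast hP
    have hN' : 4 * (d : ℝ) + 2 * (2 * S) < (2 * S) ^ 4 + (2 * S) ^ 3 + 2 * (2 * S) ^ 2 + 4 := by
      have e : (2 : ℝ) * S = 2 ^ (t + 1) := by rw [hS, pow_succ]; ring
      rw [e]; exact_mod_cast hN
    have hDx : (D : ℝ) ≤ d := by linarith
    have hx16 : (d : ℝ) ≤ 16 * D := by
      nlinarith [pow_pos hS0 3, mul_nonneg (sub_nonneg.2 hS4) (sub_nonneg.2 hS4)]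
    have hDd : D ≤ d := by exact_mod_cast hDx
    have hD0 : 0 < D := by
      have : (0 : ℝ) < D := by
        have : (0 : ℝ) < 16 * D := lt_of_lt_of_le (by
          have : (87 : ℝ) ≤ d := by exact_mod_cast hd
          linarith) hx16
        linarith
      exact_mod_cast this
    obtain ⟨n', hC', hn'⟩ := ih (d - D) (by omega)
    have hcast : ((d - D : ℕ) : ℝ) = (d : ℝ) - D := by
      rw [Nat.cast_sub hDd]
    rw [hcast] at hn'
    refine ⟨n + n', ?_, ?_⟩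
    · have := hC.add hC'
      rwa [Nat.add_sub_cancel' hDd] at this
    · have hI := A_ineq hS4 hD hDx hx16
      push_cast
      nlinarith
  · refine ⟨d, Conf.basis d, ?_⟩
    obtain ⟨w, hw0, hw4, hw3⟩ := A_w (d : ℝ) (Nat.cast_nonneg d)
    rw [hw3, ← hw4]
    have h1 : w ≤ 6 := by
      have h2 : w ^ 4 ≤ 6 ^ 4 := by
        rw [hw4]
        have : (d : ℝ) < 87 := by
          have : d < 87 := by omega
          exact_mod_cast this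
        linarith
      exact le_of_pow_le_pow_left₀ (by norm_num) (by norm_num) h2
    nlinarith [mul_nonneg (sub_nonneg.2 h1) (pow_nonneg hw0 3)]

end AE
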