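import Pool.Agent.MP_8e9e20_co.AE.Def

/-!
[AE-C1] basic facts about `Conf`: any index types; direct sums; the orthonormal basis.
* `of_family`: reindex along `Fintype.equivFin`.
* `add`: put the two families in orthogonal coordinate blocks (index type `Fin D₁ ⊕ Fin D₂` for the
  coordinates and `Fin n₁ ⊕ Fin n₂` for the vectors, then `of_family`); a vector of the first family and one
  of the second have inner product `0`; in a triple not inside one family some two are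
  in different families.
* `basis`: the standard basis.
-/

namespace AE

open scoped InnerProductSpace

theorem Conf.of_family {ι κ : Type*} [Fintype ι] [Fintype κ] (u : ι → EuclideanSpace ℝ κ)
    (h1 : ∀ i, ⟪u i, u i⟫_ℝ = 1)
    (h2 : ∀ i j, i ≠ j → 0 ≤ ⟪u i, u j⟫_ℝ ∧ ⟪u i, u j⟫_ℝ < 1)
    (h3 : ∀ i j k, i ≠ j → i ≠ k → j ≠ k →
      ⟪u i, u j⟫_ℝ = 0 ∨ ⟪u i, u k⟫_ℝ = 0 ∨ ⟪u j, u k⟫_ℝ = 0)
    (D n : ℕ) (hD : Fintype.card κ = D) (hn : Fintype.card ι = n) : Conf D n := by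
  obtain ⟨e⟩ : Nonempty (κ ≃ Fin D) := ⟨Fintype.equivFinOfCardEq hD⟩
  obtain ⟨f⟩ : Nonempty (ι ≃ Fin n) := ⟨Fintype.equivFinOfCardEq hn⟩
  set L : EuclideanSpace ℝ κ ≃ₗᵢ[ℝ] EuclideanSpace ℝ (Fin D) :=
    LinearIsometryEquiv.piLpCongrLeft 2 ℝ ℝ e
  have hL : ∀ i j, ⟪L (u i), L (u j)⟫_ℝ = ⟪u i, u j⟫_ℝ := fun i j => L.inner_map_map _ _
  have hf : ∀ {i j : Fin n}, i ≠ j → f.symm i ≠ f.symm j := fun h h' => h (f.symm.injective h')
  refine ⟨fun i => L (u (f.symm i)), fun i => ?_, fun i j hij => ?_, fun i j k hij hik hjk => ?_⟩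
  · rw [hL]; exact h1 _
  · rw [hL]; exact h2 _ _ (hf hij)
  · rw [hL, hL, hL]; exact h3 _ _ _ (hf hij) (hf hik) (hf hjk)

theorem Conf.add {D₁ n₁ D₂ n₂ : ℕ} (h1 : Conf D₁ n₁) (h2 : Conf D₂ n₂) :
    Conf (D₁ + D₂) (n₁ + n₂) := by
  obtain ⟨u, u1, u2, u3⟩ := h1
  obtain ⟨v, v1, v2, v3⟩ := h2
  set w : Fin n₁ ⊕ Fin n₂ → EuclideanSpace ℝ (Fin D₁ ⊕ Fin D₂) :=
    Sum.elim (fun i => WithLp.toLp 2 (Sum.elim (u i) fun _ => 0))
      (fun j => WithLp.toLp 2 (Sum.elim (fun _ => 0) (v j))) with hw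
  have ell : ∀ i j, ⟪w (Sum.inl i), w (Sum.inl j)⟫_ℝ = ⟪u i, u j⟫_ℝ := by
    intro i j
    simp [hw, PiLp.inner_apply]
  have elr : ∀ i j, ⟪w (Sum.inl i), w (Sum.inr j)⟫_ℝ = 0 := by
    intro i j
    simp [hw, PiLp.inner_apply]
  have erl : ∀ i j, ⟪w (Sum.inr i), w (Sum.inl j)⟫_ℝ = 0 := by
    intro i j
    simp [hw, PiLp.inner_apply]
  have err : ∀ i j, ⟪w (Sum.inr i), w (Sum.inr j)⟫_ℝ = ⟪v i, v j⟫_ℝ := by
    intro i j
    simp [hw, PiLp.inner_apply]
  refine Conf.of_family w ?_ ?_ ?_ _ _ (by simp) (by simp)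
  · rintro (i | i)
    · rw [ell]; exact u1 i
    · rw [err]; exact v1 i
  · rintro (i | i) (j | j) hij
    · rw [ell]; exact u2 i j fun h => hij (by rw [h])
    · rw [elr]; exact ⟨le_rfl, one_pos⟩
    · rw [erl]; exact ⟨le_rfl, one_pos⟩
    · rw [err]; exact v2 i j fun h => hij (by rw [h])
  · rintro (i | i) (j | j) (k | k) hij hik hjk
    · rw [ell, ell, ell]
      exact u3 i j k (fun h => hij (by rw [h])) (fun h => hik (by rw [h]))
        (fun h => hjk (by rw [h]))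
    · exact Or.inr (Or.inl (elr _ _))
    · exact Or.inl (elr _ _)
    · exact Or.inl (elr _ _)
    · exact Or.inl (erl _ _)
    · exact Or.inl (erl _ _)
    · exact Or.inr (Or.inl (erl _ _))
    · rw [err, err, err]
      exact v3 i j k (fun h => hij (by rw [h])) (fun h => hik (by rw [h]))
        (fun h => hjk (by rw [h]))

theorem Conf.basis (D : ℕ) : Conf D D := by
  have h : ∀ i j : Fin D, ⟪EuclideanSpace.single i (1 : ℝ), EuclideanSpace.single j (1 : ℝ)⟫_ℝ =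
      if i = j then 1 else 0 := by
    intro i j
    have := orthonormal_iff_ite.1 (EuclideanSpace.basisFun (Fin D) ℝ).orthonormal i j
    simpa using this
  refine ⟨fun i => EuclideanSpace.single i (1 : ℝ), fun i => ?_, fun i j hij => ?_,
    fun i j k hij hik hjk => ?_⟩
  · rw [h, if_pos rfl]
  · rw [h, if_neg hij]; exact ⟨le_rfl, one_pos⟩
  · left; rw [h, if_neg hij]

end AE
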