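import Pool.Agent.MP_8e9e20_co.AE.Def

/-!
[AE-C2] from `Conf` to almost-equidistant diameter sets.
Proof: let `p i = (1/√2) • u i`.  For `i ≠ j`: `dist (p i) (p j)^2 = (1/2) (2 - 2⟪u i, u j⟫) = 1 - ⟪u i, u j⟫`,
which is in `(0, 1]` and equals `1` iff the inner product is `0`.  So `p` is injective,
`V = Finset.univ.image p` has `n` elements, all distances are `≤ 1`, three distinct points of `V` come from three
distinct indices, so two of them are at distance `1`.  The diameter is `≤ 1` (`Metric.diam_le_of_forall_dist_le`)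
and `≥ 1` as for `n ≥ 3` the indices `0,1,2` give a pair at distance one
(`Metric.dist_le_diam_of_mem`, a finite set is bounded).
-/

namespace AE

open scoped InnerProductSpace

theorem C2_dist {D : ℕ} (x y : EuclideanSpace ℝ (Fin D)) (hx : ⟪x, x⟫_ℝ = 1)
    (hy : ⟪y, y⟫_ℝ = 1) :
    dist ((√2)⁻¹ • x) ((√2)⁻¹ • y) ^ 2 = 1 - ⟪x, y⟫_ℝ := by
  have h1 : ‖x - y‖ ^ 2 = 2 - 2 * ⟪x, y⟫_ℝ := by
    rw [norm_sub_sq_real, ← real_inner_self_eq_norm_sq, ← real_inner_self_eq_norm_sq, hx, hy]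
    ring
  rw [dist_eq_norm, ← smul_sub, norm_smul, mul_pow, h1]
  have h2 : ‖(√2)⁻¹‖ ^ 2 = 1 / 2 := by
    rw [Real.norm_eq_abs, sq_abs, inv_pow, Real.sq_sqrt (by norm_num)]
    norm_num
  rw [h2]
  ring

theorem Conf.exists_set {D n : ℕ} (hn : 3 ≤ n) (h : Conf D n) :
    ∃ V : Finset (EuclideanSpace ℝ (Fin D)), IsAEDiam V ∧ V.card = n := by
  classical
  obtain ⟨u, hu1, hu2, hu3⟩ := h
  have hd : ∀ i j, dist ((√2)⁻¹ • u i) ((√2)⁻¹ • u j) ^ 2 = 1 - ⟪u i, u j⟫_ℝ :=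
    fun i j => C2_dist (u i) (u j) (hu1 i) (hu1 j)
  have hle : ∀ i j, dist ((√2)⁻¹ • u i) ((√2)⁻¹ • u j) ≤ 1 := by
    intro i j
    by_cases hij : i = j
    · rw [hij, dist_self]; exact zero_le_one
    · have h1 := hd i j
      have h2 := (hu2 i j hij).1
      have h3 : dist ((√2)⁻¹ • u i) ((√2)⁻¹ • u j) ^ 2 ≤ 1 := by rw [h1]; linarith
      nlinarith [dist_nonneg (x := (√2)⁻¹ • u i) (y := (√2)⁻¹ • u j)]
  have hone : ∀ i j, ⟪u i, u j⟫_ℝ = 0 → dist ((√2)⁻¹ • u i) ((√2)⁻¹ • u j) = 1 := by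
    intro i j h0
    have h1 := hd i j
    rw [h0, sub_zero] at h1
    have h2 := dist_nonneg (x := (√2)⁻¹ • u i) (y := (√2)⁻¹ • u j)
    nlinarith
  have hinj : Function.Injective (fun i => (√2)⁻¹ • u i) := by
    intro i j hij
    by_contra hne
    have h1 := hd i j
    have h2 : dist ((√2)⁻¹ • u i) ((√2)⁻¹ • u j) = 0 := by
      have : (√2)⁻¹ • u i = (√2)⁻¹ • u j := hij
      rw [this, dist_self]
    rw [h2] at h1
    have h3 := (hu2 i j hne).2
    linarith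
  have hae : ∀ i j k, i ≠ j → i ≠ k → j ≠ k →
      dist ((√2)⁻¹ • u i) ((√2)⁻¹ • u j) = 1 ∨ dist ((√2)⁻¹ • u i) ((√2)⁻¹ • u k) = 1 ∨
        dist ((√2)⁻¹ • u j) ((√2)⁻¹ • u k) = 1 := by
    intro i j k h1 h2 h3
    rcases hu3 i j k h1 h2 h3 with h | h | h
    · exact Or.inl (hone _ _ h)
    · exact Or.inr (Or.inl (hone _ _ h))
    · exact Or.inr (Or.inr (hone _ _ h))
  refine ⟨Finset.univ.image (fun i => (√2)⁻¹ • u i), ⟨?_, ?_⟩, ?_⟩
  · intro x hx y hy z hz hxy hxz hyz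
    obtain ⟨i, _, rfl⟩ := Finset.mem_image.1 hx
    obtain ⟨j, _, rfl⟩ := Finset.mem_image.1 hy
    obtain ⟨k, _, rfl⟩ := Finset.mem_image.1 hz
    exact hae i j k (fun h => hxy (by rw [h])) (fun h => hxz (by rw [h])) (fun h => hyz (by rw [h]))
  · have hmem : ∀ i, (√2)⁻¹ • u i ∈
        ((Finset.univ.image (fun i => (√2)⁻¹ • u i) : Finset (EuclideanSpace ℝ (Fin D))) :
          Set (EuclideanSpace ℝ (Fin D))) := by
      intro i
      exact Finset.mem_coe.2 (Finset.mem_image.2 ⟨i, Finset.mem_univ _, rfl⟩)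
    have hbd : Bornology.IsBounded
        ((Finset.univ.image (fun i => (√2)⁻¹ • u i) : Finset (EuclideanSpace ℝ (Fin D))) :
          Set (EuclideanSpace ℝ (Fin D))) := (Finset.finite_toSet _).isBounded
    apply le_antisymm
    · apply Metric.diam_le_of_forall_dist_le zero_le_one
      intro x hx y hy
      obtain ⟨i, _, rfl⟩ := Finset.mem_image.1 (Finset.mem_coe.1 hx)
      obtain ⟨j, _, rfl⟩ := Finset.mem_image.1 (Finset.mem_coe.1 hy)
      exact hle i j
    · rcases hae ⟨0, by omega⟩ ⟨1, by omega⟩ ⟨2, by omega⟩ (by simp [Fin.ext_iff])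
        (by simp [Fin.ext_iff]) (by simp [Fin.ext_iff]) with h | h | h
      · rw [← h]; exact Metric.dist_le_diam_of_mem hbd (hmem _) (hmem _)
      · rw [← h]; exact Metric.dist_le_diam_of_mem hbd (hmem _) (hmem _)
      · rw [← h]; exact Metric.dist_le_diam_of_mem hbd (hmem _) (hmem _)
  · rw [Finset.card_image_of_injective _ hinj, Finset.card_univ, Fintype.card_fin]

end AE
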