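import Pool.Agent.MP_8e9e20_co.AE.Def

/-!
[AE-K] finite field facts.
* `exists_field`: `K = GaloisField 2 (2t-1)`. If `y^2+y+1=0` then `y^3=1`, `y ≠ 1` (char 2: `1+1+1=1≠0`), so
  `orderOf` of `y` as a unit is `3`, and `3 ∣ |K|-1 = 2^(2t-1)-1`; but `2^(2t-1) ≡ 2 (mod 3)`, contradiction.
* `two_to_one`: let `x=(a,i) ≠ y=(c,k)`, `s=a+c`. In characteristic 2
  `B x (b,j) + B (b,j) y = s^2 b + s b^2 + [i≠j](a^3+b^3) + [j≠k](b^3+c^3)`.
  Case `i = k` (then `s ≠ 0`): the value is `φ(b,j) + const`, `φ(b,j) = s^2 b + s b^2 + [j≠i](a^3+c^3)`;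
  `φ` is additive in `(b, j)` (`j` in `ZMod 2`), and its kernel has exactly two elements: for `j = i`:
  `s b (s+b) = 0`, `b ∈ {0,s}`; for `j≠i`: `s b (s+b) = a^3+c^3 = s (a^2+ac+c^2)` would give, with `c=a+s`,
  `b s + b^2 = a^2+as+s^2`, i.e. `y^2+y+1 = 0` for `y = (a+b)/s`: impossible.
  So all fibres of `φ` have `0` or `2` elements; as `|K × Bool| = 2 |K|` all have `2`.
  Case `i ≠ k`: for `j = i` the value is `s^2 b+s b^2+b^3 + c^3 = (b+s)^3+s^3+c^3`; for `j = k`:
  `(b+s)^3+s^3+a^3`; cubing is injective, hence bijective (`b^3=c^3`, `c≠0`, `b≠c`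
  gives `y^2+y+1=0` for `y=b/c`), so each value is attained exactly once for each `j`.
* `no_triangle`: `x=(a,i), y=(b,j), z=(c,l)` distinct. If `i=j=l`: the sum is `(a+b)(b+c)(c+a) ≠ 0`.
  If `i=j≠l` (then `a≠b`): the sum is `(a+b)(u^2+uc+c^2)` with `u=a+b ≠ 0`; if it vanishes then
  `y = c/u` satisfies `y^2+y+1=0`. The other cases by symmetry (`B` is symmetric).
-/

namespace AE

theorem K_card_mod (t : ℕ) (ht : 1 ≤ t) : 2 ^ (2 * t - 1) % 3 = 2 := by
  obtain ⟨s, rfl⟩ : ∃ s, t = s + 1 := ⟨t - 1, by omega⟩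
  have h : 2 * (s + 1) - 1 = 2 * s + 1 := by omega
  rw [h, pow_succ, pow_mul, Nat.mul_mod, Nat.pow_mod]
  norm_num

theorem exists_field (t : ℕ) (ht : 1 ≤ t) : ∃ (K : Type) (_ : Field K) (_ : Fintype K),
    CharP K 2 ∧ Fintype.card K = 2 ^ (2 * t - 1) ∧ ∀ y : K, y ^ 2 + y + 1 ≠ 0 := by
  classical
  have h0 : 2 * t - 1 ≠ 0 := by omega
  have : Fact (Nat.Prime 2) := ⟨Nat.prime_two⟩
  have hfin : Finite (GaloisField 2 (2 * t - 1)) := inferInstance
  letI : Fintype (GaloisField 2 (2 * t - 1)) := Fintype.ofFinite _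
  have hc : Fintype.card (GaloisField 2 (2 * t - 1)) = 2 ^ (2 * t - 1) := by
    rw [← Nat.card_eq_fintype_card, GaloisField.card 2 _ h0]
  refine ⟨GaloisField 2 (2 * t - 1), inferInstance, inferInstance, inferInstance, hc, ?_⟩
  intro y hy
  have h3 : y ^ 3 = 1 := by linear_combination (y - 1) * hy
  have h1 : y ≠ 1 := by
    rintro rfl
    have h2 : (2 : GaloisField 2 (2 * t - 1)) = 0 := CharTwo.two_eq_zero
    have : (1 : GaloisField 2 (2 * t - 1)) = 0 := by linear_combination hy - h2
    exact one_ne_zero this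
  have hy0 : y ≠ 0 := by
    rintro rfl
    simp at hy
  have hord : orderOf (Units.mk0 y hy0) = 3 := by
    have : Fact (Nat.Prime 3) := ⟨Nat.prime_three⟩
    refine orderOf_eq_prime ?_ ?_
    · ext
      simpa using h3
    · intro h
      apply h1
      have := congrArg Units.val h
      simpa using this
  have hdvd : 3 ∣ 2 ^ (2 * t - 1) - 1 := by
    rw [← hord, ← hc, ← Fintype.card_units]
    exact orderOf_dvd_card
  have hm := K_card_mod t ht
  omega

variable {K : Type*} [Field K] [CharP K 2]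

theorem B_symm (x y : K × Bool) : B x y = B y x := by
  unfold B
  by_cases h : x.2 = y.2
  · rw [if_pos h, if_pos h.symm]
    ring
  · rw [if_neg h, if_neg (Ne.symm h)]
    ring

theorem B_self (x : K × Bool) : B x x = 0 := by
  unfold B
  rw [if_pos rfl]
  have h2 : (2 : K) = 0 := CharTwo.two_eq_zero
  linear_combination x.1 ^ 3 * h2

theorem K_cube_inj (hK : ∀ y : K, y ^ 2 + y + 1 ≠ 0) : Function.Injective (fun b : K => b ^ 3) := by
  intro b c h
  simp only at h
  by_contra hne
  have h2 : (2 : K) = 0 := CharTwo.two_eq_zero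
  have hc : c ≠ 0 := by
    rintro rfl
    apply hne
    have : b ^ 3 = 0 := by rw [h]; ring
    exact (pow_eq_zero_iff three_ne_zero).1 this
  apply hK (b / c)
  have h3 : (b - c) * (b ^ 2 + b * c + c ^ 2) = 0 := by linear_combination h
  have h4 : b ^ 2 + b * c + c ^ 2 = 0 := (mul_eq_zero.1 h3).resolve_left (sub_ne_zero.2 hne)
  field_simp
  linear_combination h4

theorem K_norm (hK : ∀ y : K, y ^ 2 + y + 1 ≠ 0) {u c : K} (hu : u ≠ 0) :
    u ^ 2 + u * c + c ^ 2 ≠ 0 := by
  intro h
  apply hK (c / u)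
  field_simp
  linear_combination h

theorem K_add_ne {a b : K} (h : a ≠ b) : a + b ≠ 0 := by
  intro h1
  apply h
  have h2 : (2 : K) = 0 := CharTwo.two_eq_zero
  linear_combination h1 - b * h2

theorem K_fib_le [Fintype K] [DecidableEq K] (hK : ∀ y : K, y ^ 2 + y + 1 ≠ 0)
    {x y : K × Bool} (hxy : x ≠ y) (v : K) :
    (Finset.univ.filter fun z : K × Bool => B x z + B z y = v).card ≤ 2 := by
  have h2 : (2 : K) = 0 := CharTwo.two_eq_zero
  obtain ⟨a, i⟩ := x
  obtain ⟨c, k⟩ := y
  by_cases hik : i = k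
  · subst hik
    have hac : a ≠ c := fun h => hxy (by rw [h])
    have hs : a + c ≠ 0 := K_add_ne hac
    rcases Finset.eq_empty_or_nonempty
      (Finset.univ.filter fun z : K × Bool => B (a, i) z + B z (c, i) = v) with he | ⟨z₀, hz₀⟩
    · rw [he]
      simp
    · have hsub : (Finset.univ.filter fun z : K × Bool => B (a, i) z + B z (c, i) = v) ⊆
          {z₀, (z₀.1 + (a + c), z₀.2)} := by
        intro z hz
        rw [Finset.mem_filter] at hz hz₀
        obtain ⟨b₀, j₀⟩ := z₀
        obtain ⟨b, j⟩ := z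
        have e := hz.2.trans hz₀.2.symm
        unfold B at e
        simp only at e
        rw [Finset.mem_insert, Finset.mem_singleton, Prod.mk.injEq, Prod.mk.injEq]
        by_cases hj : j = j₀
        · subst hj
          have e1 : (a + c) * (b + b₀) * ((a + c) + (b + b₀)) = 0 := by
            by_cases hij : i = j
            · rw [if_pos hij, if_pos hij.symm, if_pos hij, if_pos hij.symm] at e
              linear_combination e + (a^2*b₀ + a*b*c + a*b*b₀ + a*c*b₀ + a*b₀^2 + b*c*b₀ + c^2*b₀ + c*b₀^2) * h2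
            · rw [if_neg hij, if_neg (Ne.symm hij), if_neg hij, if_neg (Ne.symm hij)] at e
              linear_combination e + (a^2*b₀ + a*b*c + a*b*b₀ + a*c*b₀ + a*b₀^2 - b^3 + b*c*b₀ + c^2*b₀ + c*b₀^2 + b₀^3) * h2
          rcases mul_eq_zero.1 e1 with e2 | e2
          · left
            refine ⟨?_, rfl⟩
            have e3 := (mul_eq_zero.1 e2).resolve_left hs
            linear_combination e3 - b₀ * h2
          · right
            refine ⟨?_, rfl⟩
            linear_combination e2 - (b₀ + a + c) * h2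
        · exfalso
          have e1 : (a + c) * ((a + c) ^ 2 + (a + c) * (a + b + b₀) + (a + b + b₀) ^ 2) = 0 := by
            by_cases hij : i = j
            · have hij₀ : i ≠ j₀ := fun h => hj (hij.symm.trans h)
              rw [if_pos hij, if_pos hij.symm, if_neg hij₀, if_neg (Ne.symm hij₀)] at e
              linear_combination e + (2*a^3 + a^2*b + 3*a^2*c + 2*a^2*b₀ + 2*a*b*c + a*b*b₀ + 2*a*c^2 + 2*a*c*b₀ + a*b₀^2 + b*c*b₀ + c^3 + c^2*b₀ + c*b₀^2 + b₀^3) * h2
            · have hij₀ : i = j₀ := by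
                cases i <;> cases j <;> cases j₀ <;> simp_all
              rw [if_neg hij, if_neg (Ne.symm hij), if_pos hij₀, if_pos hij₀.symm] at e
              linear_combination e + (a^3 + a^2*b + 3*a^2*c + 2*a^2*b₀ + 2*a*b*c + a*b*b₀ + 2*a*c^2 + 2*a*c*b₀ + a*b₀^2 - b^3 + b*c*b₀ + c^2*b₀ + c*b₀^2) * h2
          exact K_norm hK hs ((mul_eq_zero.1 e1).resolve_left hs)
      refine (Finset.card_le_card hsub).trans ?_
      exact Finset.card_le_two
  · have hinj : ∀ z ∈ (Finset.univ.filter fun z : K × Bool => B (a, i) z + B z (c, k) = v),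
        ∀ z₀ ∈ (Finset.univ.filter fun z : K × Bool => B (a, i) z + B z (c, k) = v),
        z.2 = z₀.2 → z = z₀ := by
      intro z hz z₀ hz₀ hj
      rw [Finset.mem_filter] at hz hz₀
      obtain ⟨b₀, j₀⟩ := z₀
      obtain ⟨b, j⟩ := z
      have hj' : j = j₀ := hj
      subst hj'
      have e := hz.2.trans hz₀.2.symm
      unfold B at e
      simp only at e
      have e1 : (b + (a + c)) ^ 3 = (b₀ + (a + c)) ^ 3 := by
        by_cases hij : i = j
        · have hjk : j ≠ k := fun h => hik (hij.trans h)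
          rw [if_pos hij, if_neg hjk, if_pos hij, if_neg hjk] at e
          linear_combination e + (a^2*b - a^2*b₀ + a*b^2 + 3*a*b*c - 3*a*c*b₀ - a*b₀^2 + b^2*c + b*c^2 - c^2*b₀ - c*b₀^2) * h2
        · have hjk : j = k := by
            cases i <;> cases j <;> cases k <;> simp_all
          rw [if_neg hij, if_pos hjk, if_neg hij, if_pos hjk] at e
          linear_combination e + (a^2*b - a^2*b₀ + a*b^2 + 3*a*b*c - 3*a*c*b₀ - a*b₀^2 + b^2*c + b*c^2 - c^2*b₀ - c*b₀^2) * h2
      have e2 := K_cube_inj hK e1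
      rw [add_right_cancel e2]
    have h1 := Finset.card_le_card_of_injOn (s := (Finset.univ.filter fun z : K × Bool =>
      B (a, i) z + B z (c, k) = v)) (t := (Finset.univ : Finset Bool)) (fun z => z.2)
      (fun _ _ => Finset.mem_univ _) (fun z hz z₀ hz₀ h => hinj z hz z₀ hz₀ h)
    simpa using h1

theorem two_to_one [Fintype K] [DecidableEq K] (hK : ∀ y : K, y ^ 2 + y + 1 ≠ 0)
    {x y : K × Bool} (hxy : x ≠ y) (v : K) :
    (Finset.univ.filter fun z : K × Bool => B x z + B z y = v).card = 2 := by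
  refine le_antisymm (K_fib_le hK hxy v) ?_
  by_contra hlt
  push Not at hlt
  have h1 : (Finset.univ : Finset (K × Bool)).card =
      ∑ w : K, (Finset.univ.filter fun z : K × Bool => B x z + B z y = w).card :=
    Finset.card_eq_sum_card_fiberwise fun _ _ => Finset.mem_univ _
  have h2 : ∑ w : K, (Finset.univ.filter fun z : K × Bool => B x z + B z y = w).card <
      ∑ _w : K, 2 :=
    Finset.sum_lt_sum (fun w _ => K_fib_le hK hxy w) ⟨v, Finset.mem_univ _, hlt⟩
  rw [← h1, Finset.sum_const, Finset.card_univ, Finset.card_univ, Fintype.card_prod,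
    Fintype.card_bool, smul_eq_mul] at h2
  exact lt_irrefl _ h2

theorem no_triangle (hK : ∀ y : K, y ^ 2 + y + 1 ≠ 0) {x y z : K × Bool}
    (hxy : x ≠ y) (hxz : x ≠ z) (hyz : y ≠ z) : B x y + B y z + B x z ≠ 0 := by
  have h2 : (2 : K) = 0 := CharTwo.two_eq_zero
  obtain ⟨a, i⟩ := x
  obtain ⟨b, j⟩ := y
  obtain ⟨c, l⟩ := z
  have key : ∀ u w : K, u ≠ 0 → u * (u ^ 2 + u * w + w ^ 2) ≠ 0 := fun u w hu =>
    mul_ne_zero hu (K_norm hK hu)
  unfold B
  simp only
  by_cases hij : i = j
  · have hab : a + b ≠ 0 := K_add_ne fun h => hxy (by rw [h, hij])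
    by_cases hjl : j = l
    · have hbc : b + c ≠ 0 := K_add_ne fun h => hyz (by rw [h, hjl])
      have hac : c + a ≠ 0 := K_add_ne fun h => hxz (by rw [h, hij, hjl])
      rw [if_pos hij, if_pos hjl, if_pos (hij.trans hjl)]
      intro h
      refine mul_ne_zero (mul_ne_zero hab hbc) hac ?_
      linear_combination h + (a * b * c) * h2
    · rw [if_pos hij, if_neg hjl, if_neg (fun h => hjl (hij.symm.trans h))]
      intro h
      refine key (a + b) c hab ?_
      linear_combination h - (c ^ 3 - a ^ 2 * b - a * b ^ 2 - a * b * c) * h2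
  · by_cases hjl : j = l
    · have hbc : b + c ≠ 0 := K_add_ne fun h => hyz (by rw [h, hjl])
      rw [if_neg hij, if_pos hjl, if_neg (fun h => hij (h.trans hjl.symm))]
      intro h
      refine key (b + c) a hbc ?_
      linear_combination h - (a ^ 3 - b ^ 2 * c - b * c ^ 2 - a * b * c) * h2
    · have hil : i = l := by
        cases i <;> cases j <;> cases l <;> simp_all
      have hac : c + a ≠ 0 := K_add_ne fun h => hxz (by rw [h, hil])
      rw [if_neg hij, if_neg hjl, if_pos hil]
      intro h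
      refine key (c + a) b hac ?_
      linear_combination h - (b ^ 3 - c ^ 2 * a - c * a ^ 2 - a * b * c) * h2

end AE
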