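import Pool.Agent.MP_8e9e20_co.AE.Gram
import Pool.Agent.MP_8e9e20_co.AE.ConfA
import Pool.Agent.MP_8e9e20_co.AE.Field

/-!
[AE-M] the cover graphs give configurations.
Let `K` be the field of `exists_field t`, `r = |K| = 2^(2t-1)`, `s = 2^t`, `m = 2 r = s^2`,
`ι = (K × Bool) × K`, `n = |ι| = m r = s^4/2`.  Define matrices on `ι`:
`N (x,α) (y,β) = [α + β = B x y]` (so the diagonal is `1` since `B x x = 0` and `α+α=0`),
`F (x,α) (y,β) = [x = y]`, `J = 1` (all ones).
* `N` is symmetric; `N*N = m I + 2 (J - F)`: the entry is the number of pairs `(z,γ)` with `α+γ=B x z`, `γ+β=B z y`,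
  i.e. the number of `z` with `B x z + B z y = α+β`; this is `2` if `x≠y` (`two_to_one`), and for `x=y` it is
  `m` if `α=β` (as `B x z + B z x = 0`) and `0` otherwise.
* `N*F = F*N = J`, `F*F = r F`, `J*F = F*J = r J`, `N*J = J*N = m J` , `J*J = n J`.
* `Q = I - F/r`; `R = N*Q = N - J/r`; then `Q*Q=Q`, `R*Q=Q*R=R`, `R*R = m Q = s^2 Q`; all symmetric;
  `P = (Q + R/s)/2` is a symmetric projection with trace `((n-m) + (n-m)/s)/2 =: p`, an integer `k` with
  `4 k = s (s^2-2) (s+1)` (`tr N = n`, `tr J = tr F = n`).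
* `exists_gram_of_proj` gives `v : ι → ℝ^k` with `⟪v i, v j⟫ = P i j`.
* the vector of `i = (x,α)` is `(1/√(s+1)) (√(2s) v_i , √(s/r) e_x, 1/√r)` in `ℝ^(k+m+1)`:
  inner products `(2s P i j + (s/r) [x=y] + 1/r)/(s+1) = (s Q + R + (sF+J)/r)_{ij}/(s+1) = (s I + N)_{ij}/(s+1)`:
  `1` on the diagonal, and `N_ij/(s+1) ∈ {0, 1/(s+1)}` off the diagonal;
  three distinct vertices with all `N = 1` would have `x,y,z` distinct (`N (x,α) (x,β) = 0` for `α≠β`) and
  `B x y + B y z + B x z = 0`, against `no_triangle`.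
* dimension: `D = k + m + 1`, `4 D = s(s^2-2)(s+1) + 4 s^2 + 4 = s^4+s^3+2s^2-2s+4`.
-/

namespace AE

open scoped InnerProductSpace

section cover_matrices

set_option linter.unusedSectionVars false

variable {K : Type} [Field K] [Fintype K] [DecidableEq K] [CharP K 2]

/-- the cover graph with loops -/
def Cover_N (K : Type) [Field K] [DecidableEq K] : Matrix ((K × Bool) × K) ((K × Bool) × K) ℝ :=
  fun a b => if a.2 + b.2 = B a.1 b.1 then 1 else 0

/-- same fibre -/
def Cover_F (K : Type) [DecidableEq K] : Matrix ((K × Bool) × K) ((K × Bool) × K) ℝ :=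
  fun a b => if a.1 = b.1 then 1 else 0

/-- all ones -/
def Cover_J (K : Type) : Matrix ((K × Bool) × K) ((K × Bool) × K) ℝ :=
  fun _ _ => 1

lemma Cover_sum_fib (a b : K) : (∑ γ : K, if a + γ = b then (1 : ℝ) else 0) = 1 := by
  have : ∀ γ : K, (a + γ = b) ↔ (γ = b - a) := by
    intro γ
    constructor
    · intro h; rw [← h]; ring
    · intro h; rw [h]; ring
  simp [this]

lemma Cover_sum_fib' (a b : K) : (∑ γ : K, if γ + a = b then (1 : ℝ) else 0) = 1 := by
  simp only [add_comm _ a]
  exact Cover_sum_fib a b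

lemma Cover_NF : Cover_N K * Cover_F K = Cover_J K := by
  ext a b
  simp only [Matrix.mul_apply, Cover_N, Cover_F, Cover_J]
  rw [Fintype.sum_prod_type]
  have : ∀ z : K × Bool, (∑ γ : K, (if a.2 + (z, γ).2 = B a.1 (z, γ).1 then (1 : ℝ) else 0) *
      (if (z, γ).1 = b.1 then 1 else 0)) = if z = b.1 then 1 else 0 := by
    intro z
    by_cases h : z = b.1
    · simp only [h, if_true, mul_one]
      exact Cover_sum_fib _ _
    · simp only [h, if_false, mul_zero, Finset.sum_const_zero]
  rw [Finset.sum_congr rfl fun z _ => this z]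
  simp

lemma Cover_N_symm : (Cover_N K).transpose = Cover_N K := by
  ext a b
  simp only [Matrix.transpose_apply, Cover_N]
  rw [add_comm b.2 a.2, B_symm b.1 a.1]

lemma Cover_F_symm : (Cover_F K).transpose = Cover_F K := by
  ext a b
  simp only [Matrix.transpose_apply, Cover_F]
  simp only [eq_comm]

lemma Cover_J_symm : (Cover_J K).transpose = Cover_J K := by
  ext a b
  simp only [Matrix.transpose_apply, Cover_J]

lemma Cover_FN : Cover_F K * Cover_N K = Cover_J K := by
  have h := congrArg Matrix.transpose (Cover_NF (K := K))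
  rwa [Matrix.transpose_mul, Cover_N_symm, Cover_F_symm, Cover_J_symm] at h

lemma Cover_FF : Cover_F K * Cover_F K = (Fintype.card K : ℝ) • Cover_F K := by
  ext a b
  simp only [Matrix.mul_apply, Cover_F, Matrix.smul_apply, smul_eq_mul]
  rw [Fintype.sum_prod_type]
  have : ∀ z : K × Bool, (∑ γ : K, (if a.1 = (z, γ).1 then (1 : ℝ) else 0) *
      (if (z, γ).1 = b.1 then 1 else 0)) = if z = a.1 then
        ((Fintype.card K : ℝ) * if a.1 = b.1 then 1 else 0) else 0 := by
    intro z
    by_cases h : z = a.1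
    · subst h; by_cases h1 : a.1 = b.1 <;> simp [h1]
    · simp [h, Ne.symm h]
  rw [Finset.sum_congr rfl fun z _ => this z]
  simp

lemma Cover_JF : Cover_J K * Cover_F K = (Fintype.card K : ℝ) • Cover_J K := by
  ext a b
  simp only [Matrix.mul_apply, Cover_F, Cover_J, Matrix.smul_apply, smul_eq_mul]
  rw [Fintype.sum_prod_type]
  have : ∀ z : K × Bool, (∑ γ : K, (1 : ℝ) *
      (if (z, γ).1 = b.1 then 1 else 0)) = if z = b.1 then (Fintype.card K : ℝ) else 0 := by
    intro z
    by_cases h : z = b.1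
    · simp [h]
    · simp [h]
  rw [Finset.sum_congr rfl fun z _ => this z]
  simp

lemma Cover_FJ : Cover_F K * Cover_J K = (Fintype.card K : ℝ) • Cover_J K := by
  have h := congrArg Matrix.transpose (Cover_JF (K := K))
  rwa [Matrix.transpose_mul, Cover_F_symm, Cover_J_symm, Matrix.transpose_smul,
    Cover_J_symm] at h

lemma Cover_NJ : Cover_N K * Cover_J K = (2 * Fintype.card K : ℝ) • Cover_J K := by
  ext a b
  simp only [Matrix.mul_apply, Cover_N, Cover_J, Matrix.smul_apply, smul_eq_mul]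
  rw [Fintype.sum_prod_type]
  have : ∀ z : K × Bool, (∑ γ : K, (if a.2 + (z, γ).2 = B a.1 (z, γ).1 then (1 : ℝ) else 0) * 1)
      = 1 := by
    intro z
    simp only [mul_one]
    exact Cover_sum_fib _ _
  rw [Finset.sum_congr rfl fun z _ => this z]
  simp [mul_comm]

lemma Cover_JN : Cover_J K * Cover_N K = (2 * Fintype.card K : ℝ) • Cover_J K := by
  have h := congrArg Matrix.transpose (Cover_NJ (K := K))
  rwa [Matrix.transpose_mul, Cover_N_symm, Cover_J_symm, Matrix.transpose_smul,
    Cover_J_symm] at h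

lemma Cover_JJ : Cover_J K * Cover_J K =
    (2 * Fintype.card K * Fintype.card K : ℝ) • Cover_J K := by
  ext a b
  simp only [Matrix.mul_apply, Cover_J, Matrix.smul_apply, smul_eq_mul]
  simp
  ring

lemma Cover_NN (hK : ∀ y : K, y ^ 2 + y + 1 ≠ 0) : Cover_N K * Cover_N K =
    (2 * Fintype.card K : ℝ) • (1 : Matrix ((K × Bool) × K) ((K × Bool) × K) ℝ) +
      (2 : ℝ) • (Cover_J K - Cover_F K) := by
  ext a b
  simp only [Matrix.mul_apply, Cover_N, Cover_J, Cover_F, Matrix.smul_apply, smul_eq_mul,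
    Matrix.add_apply, Matrix.sub_apply, Matrix.one_apply]
  rw [Fintype.sum_prod_type]
  have h2 : ∀ u : K, u + u = 0 := fun u => CharTwo.add_self_eq_zero u
  have key : ∀ z : K × Bool, (∑ γ : K, (if a.2 + (z, γ).2 = B a.1 (z, γ).1 then (1 : ℝ) else 0) *
      (if (z, γ).2 + b.2 = B (z, γ).1 b.1 then 1 else 0)) =
      if B a.1 z + B z b.1 = a.2 + b.2 then 1 else 0 := by
    intro z
    have : ∀ γ : K, (if a.2 + (z, γ).2 = B a.1 (z, γ).1 then (1 : ℝ) else 0) *
      (if (z, γ).2 + b.2 = B (z, γ).1 b.1 then 1 else 0) =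
      if γ = B a.1 z - a.2 then (if B a.1 z + B z b.1 = a.2 + b.2 then (1 : ℝ) else 0) else 0 := by
      intro γ
      dsimp only
      by_cases h : γ = B a.1 z - a.2
      · subst h
        have e1 : a.2 + (B a.1 z - a.2) = B a.1 z := by ring
        rw [if_pos e1, if_pos rfl, one_mul]
        have e2 : (B a.1 z - a.2 + b.2 = B z b.1) ↔ (B a.1 z + B z b.1 = a.2 + b.2) := by
          constructor
          · intro h
            rw [← h]
            linear_combination h2 (B a.1 z) - h2 a.2
          · intro h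
            linear_combination h + h2 b.2 - h2 (B z b.1)
        simp only [e2]
      · have e1 : ¬ (a.2 + γ = B a.1 z) := by
          intro h1
          apply h
          rw [← h1]
          ring
        rw [if_neg e1, if_neg h, zero_mul]
    rw [Finset.sum_congr rfl fun γ _ => this γ]
    simp
  rw [Finset.sum_congr rfl fun z _ => key z]
  by_cases hxy : a.1 = b.1
  · have : ∀ z : K × Bool, B a.1 z + B z b.1 = 0 := by
      intro z
      rw [← hxy, B_symm z a.1]
      exact h2 _
    simp only [this]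
    by_cases hab : a.2 = b.2
    · have hab' : a = b := Prod.ext hxy hab
      subst hab'
      have : (0 : K) = a.2 + a.2 := (h2 _).symm
      rw [if_pos this]
      simp [mul_comm]
    · have hab' : a ≠ b := fun h => hab (by rw [h])
      have : ¬ ((0 : K) = a.2 + b.2) := by
        intro h
        apply hab
        linear_combination (-1 : K) * h - h2 b.2
      rw [if_neg this, if_neg hab', if_pos hxy]
      simp
  · have hab' : a ≠ b := fun h => hxy (by rw [h])
    rw [if_neg hab', if_neg hxy]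
    have h := two_to_one hK hxy (a.2 + b.2)
    rw [← Finset.sum_filter, Finset.sum_const, h]
    simp

/-- the projection -/
noncomputable def Cover_P (K : Type) [Field K] [Fintype K] [DecidableEq K] (s : ℝ) :
    Matrix ((K × Bool) × K) ((K × Bool) × K) ℝ :=
  (1 / 2 : ℝ) • ((1 - (1 / (Fintype.card K : ℝ)) • Cover_F K) +
    (1 / s) • (Cover_N K - (1 / (Fintype.card K : ℝ)) • Cover_J K))

lemma Cover_P_symm (s : ℝ) : (Cover_P K s).IsSymm := by
  unfold Matrix.IsSymm Cover_P
  rw [Matrix.transpose_smul, Matrix.transpose_add, Matrix.transpose_sub, Matrix.transpose_smul,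
    Matrix.transpose_smul, Matrix.transpose_sub, Matrix.transpose_smul, Matrix.transpose_one,
    Cover_F_symm, Cover_J_symm, Cover_N_symm]

lemma Cover_QQ : (1 - (1 / (Fintype.card K : ℝ)) • Cover_F K) *
    (1 - (1 / (Fintype.card K : ℝ)) • Cover_F K) = 1 - (1 / (Fintype.card K : ℝ)) • Cover_F K := by
  have hr : (Fintype.card K : ℝ) ≠ 0 := by
    have := Fintype.card_pos (α := K)
    positivity
  rw [sub_mul, one_mul, mul_sub, mul_one, smul_mul_smul_comm, Cover_FF, smul_smul]
  have : 1 / (Fintype.card K : ℝ) * (1 / (Fintype.card K : ℝ)) * (Fintype.card K : ℝ) =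
      1 / (Fintype.card K : ℝ) := by
    field_simp
  rw [this, sub_self, sub_zero]

lemma Cover_QR : (1 - (1 / (Fintype.card K : ℝ)) • Cover_F K) *
    (Cover_N K - (1 / (Fintype.card K : ℝ)) • Cover_J K) =
      Cover_N K - (1 / (Fintype.card K : ℝ)) • Cover_J K := by
  have hr : (Fintype.card K : ℝ) ≠ 0 := by
    have := Fintype.card_pos (α := K)
    positivity
  rw [sub_mul, one_mul, mul_sub, smul_mul_smul_comm, Cover_FJ, smul_smul, smul_mul_assoc, Cover_FN]
  have : 1 / (Fintype.card K : ℝ) * (1 / (Fintype.card K : ℝ)) * (Fintype.card K : ℝ) =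
      1 / (Fintype.card K : ℝ) := by
    field_simp
  rw [this, sub_self, sub_zero]

lemma Cover_RQ : (Cover_N K - (1 / (Fintype.card K : ℝ)) • Cover_J K) *
    (1 - (1 / (Fintype.card K : ℝ)) • Cover_F K) =
      Cover_N K - (1 / (Fintype.card K : ℝ)) • Cover_J K := by
  have hr : (Fintype.card K : ℝ) ≠ 0 := by
    have := Fintype.card_pos (α := K)
    positivity
  rw [mul_sub, mul_one, sub_mul, smul_mul_smul_comm, Cover_JF, smul_smul, mul_smul_comm, Cover_NF]
  have : 1 / (Fintype.card K : ℝ) * (1 / (Fintype.card K : ℝ)) * (Fintype.card K : ℝ) =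
      1 / (Fintype.card K : ℝ) := by
    field_simp
  rw [this, sub_self, sub_zero]

lemma Cover_RR (hK : ∀ y : K, y ^ 2 + y + 1 ≠ 0) :
    (Cover_N K - (1 / (Fintype.card K : ℝ)) • Cover_J K) *
    (Cover_N K - (1 / (Fintype.card K : ℝ)) • Cover_J K) =
      (2 * Fintype.card K : ℝ) • (1 - (1 / (Fintype.card K : ℝ)) • Cover_F K) := by
  have hr : (Fintype.card K : ℝ) ≠ 0 := by
    have := Fintype.card_pos (α := K)
    positivity
  rw [mul_sub, sub_mul, sub_mul, Cover_NN hK, smul_mul_smul_comm, Cover_JJ, smul_smul,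
    mul_smul_comm, smul_mul_assoc, Cover_NJ, Cover_JN, smul_smul]
  have e1 : 1 / (Fintype.card K : ℝ) * (1 / (Fintype.card K : ℝ)) *
      (2 * Fintype.card K * Fintype.card K : ℝ) = 2 := by
    field_simp
  have e2 : 1 / (Fintype.card K : ℝ) * (2 * Fintype.card K : ℝ) = 2 := by
    field_simp
  rw [e1, e2]
  have e3 : (2 * Fintype.card K : ℝ) * (1 / (Fintype.card K : ℝ)) = 2 := by
    field_simp
  rw [smul_sub (2 * Fintype.card K : ℝ) (1 : Matrix ((K × Bool) × K) ((K × Bool) × K) ℝ), smul_smul,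
    e3]
  module

lemma Cover_PP (hK : ∀ y : K, y ^ 2 + y + 1 ≠ 0) (s : ℝ) (hs : s ^ 2 = 2 * Fintype.card K) :
    Cover_P K s * Cover_P K s = Cover_P K s := by
  have hr : (Fintype.card K : ℝ) ≠ 0 := by
    have := Fintype.card_pos (α := K)
    positivity
  have hs0 : s ≠ 0 := by
    intro h
    rw [h] at hs
    apply hr
    linarith
  unfold Cover_P
  set Q := (1 - (1 / (Fintype.card K : ℝ)) • Cover_F K) with hQ
  set R := (Cover_N K - (1 / (Fintype.card K : ℝ)) • Cover_J K) with hR
  have hQQ : Q * Q = Q := Cover_QQ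
  have hQR : Q * R = R := Cover_QR
  have hRQ : R * Q = R := Cover_RQ
  have hRR : R * R = (2 * Fintype.card K : ℝ) • Q := Cover_RR hK
  rw [smul_mul_smul_comm, add_mul, mul_add, mul_add, mul_smul_comm, smul_mul_assoc, smul_mul_smul_comm,
    hQQ, hQR, hRQ, hRR, ← hs, smul_smul]
  have e1 : 1 / s * (1 / s) * s ^ 2 = 1 := by
    field_simp
  rw [e1]
  module

lemma Cover_P_apply (s : ℝ) (a b : (K × Bool) × K) : Cover_P K s a b =
    (1 / 2 : ℝ) * (((if a = b then 1 else 0) - (1 / (Fintype.card K : ℝ)) *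
      (if a.1 = b.1 then 1 else 0)) + (1 / s) * ((if a.2 + b.2 = B a.1 b.1 then 1 else 0) -
        (1 / (Fintype.card K : ℝ)))) := by
  simp only [Cover_P, Matrix.smul_apply, Matrix.add_apply, Matrix.sub_apply, Matrix.one_apply,
    Cover_F, Cover_N, Cover_J, smul_eq_mul, mul_one]

lemma Cover_P_trace (s : ℝ) (hs : s ^ 2 = 2 * Fintype.card K) :
    (Cover_P K s).trace = s * (s ^ 2 - 2) * (s + 1) / 4 := by
  have hr : (Fintype.card K : ℝ) ≠ 0 := by
    have := Fintype.card_pos (α := K)
    positivity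
  have hs0 : s ≠ 0 := by
    intro h
    rw [h] at hs
    apply hr
    linarith
  have h2 : ∀ u : K, u + u = 0 := fun u => CharTwo.add_self_eq_zero u
  have hd : ∀ a : (K × Bool) × K, Cover_P K s a a =
      (1 / 2 : ℝ) * ((1 - (1 / (Fintype.card K : ℝ))) + (1 / s) * (1 -
        (1 / (Fintype.card K : ℝ)))) := by
    intro a
    rw [Cover_P_apply, if_pos rfl, if_pos rfl, if_pos (by rw [h2, B_self]), mul_one]
  unfold Matrix.trace
  simp only [Matrix.diag_apply, hd]
  rw [Finset.sum_const, Finset.card_univ, Fintype.card_prod, Fintype.card_prod, Fintype.card_bool,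
    nsmul_eq_mul]
  push_cast
  have hr2 : (Fintype.card K : ℝ) = s ^ 2 / 2 := by linarith
  rw [hr2]
  field_simp
  ring

end cover_matrices

theorem conf_cover (t : ℕ) (ht : 1 ≤ t) : ∃ D n : ℕ, Conf D n ∧
    (4 * D : ℝ) = (2 ^ t) ^ 4 + (2 ^ t) ^ 3 + 2 * (2 ^ t) ^ 2 - 2 * 2 ^ t + 4 ∧
    (2 * n : ℝ) = (2 ^ t) ^ 4 := by
  classical
  obtain ⟨K, iF, iT, hchar, hcard, hK⟩ := exists_field t ht
  set s : ℝ := 2 ^ t with hs
  have hs0 : 0 < s := by positivity
  have hs2 : s ^ 2 = 2 * Fintype.card K := by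
    rw [hcard, hs]
    push_cast
    rw [← pow_succ', ← pow_mul]
    congr 1
    omega
  have hr0 : (0 : ℝ) < Fintype.card K := by
    have := Fintype.card_pos (α := K)
    positivity
  obtain ⟨k, hk⟩ : ∃ k : ℕ, (k : ℝ) = s * (s ^ 2 - 2) * (s + 1) / 4 := by
    refine ⟨2 ^ (t - 1) * (2 ^ (2 * t - 1) - 1) * (2 ^ t + 1), ?_⟩
    have e1 : (2 : ℝ) ^ (t - 1) = s / 2 := by
      rw [hs]
      obtain ⟨u, rfl⟩ : ∃ u, t = u + 1 := ⟨t - 1, by omega⟩
      rw [Nat.add_sub_cancel, pow_succ]
      ring
    have e2 : (2 : ℝ) ^ (2 * t - 1) = s ^ 2 / 2 := by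
      rw [hs]
      obtain ⟨u, rfl⟩ : ∃ u, t = u + 1 := ⟨t - 1, by omega⟩
      rw [show 2 * (u + 1) - 1 = 2 * u + 1 by omega]
      ring
    push_cast [Nat.one_le_two_pow]
    rw [e1, e2, ← hs]
    ring
  obtain ⟨v, hv⟩ := exists_gram_of_proj (Cover_P K s) (Cover_P_symm s) (Cover_PP hK s hs2) k
    (by rw [Cover_P_trace s hs2, hk])
  let w : (K × Bool) × K → EuclideanSpace ℝ (Fin k ⊕ ((K × Bool) ⊕ Unit)) := fun i =>
    WithLp.toLp 2 (Sum.elim (fun a => Real.sqrt (2 * s / (s + 1)) * v i a)
      (Sum.elim (fun x => Real.sqrt (s / (Fintype.card K * (s + 1))) * if x = i.1 then 1 else 0)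
        (fun _ => Real.sqrt (1 / (Fintype.card K * (s + 1))))))
  have hw : ∀ i j, ⟪w i, w j⟫_ℝ = (s * (if i = j then 1 else 0) +
      (if i.2 + j.2 = B i.1 j.1 then 1 else 0)) / (s + 1) := by
    intro i j
    have h1 : ⟪w i, w j⟫_ℝ = (2 * s / (s + 1)) * ⟪v i, v j⟫_ℝ +
        (s / (Fintype.card K * (s + 1)) * (if i.1 = j.1 then 1 else 0) +
          1 / (Fintype.card K * (s + 1))) := by
      simp only [PiLp.inner_apply, w]
      rw [Fintype.sum_sum_type, Fintype.sum_sum_type]
      simp only [Sum.elim_inl, Sum.elim_inr]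
      congr 1
      · rw [Finset.mul_sum]
        apply Finset.sum_congr rfl
        intro a _
        simp only [RCLike.inner_apply, conj_trivial]
        have := Real.mul_self_sqrt (show 0 ≤ 2 * s / (s + 1) by positivity)
        linear_combination (v j a * v i a) * this
      · congr 1
        · have : ∀ x : K × Bool, inner ℝ
              (Real.sqrt (s / (Fintype.card K * (s + 1))) * if x = i.1 then (1 : ℝ) else 0)
              (Real.sqrt (s / (Fintype.card K * (s + 1))) * if x = j.1 then (1 : ℝ) else 0)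
              = if x = i.1 then (s / (Fintype.card K * (s + 1)) * (if i.1 = j.1 then 1 else 0))
                else 0 := by
            intro x
            simp only [RCLike.inner_apply, conj_trivial]
            by_cases hx : x = i.1
            · subst hx
              rw [if_pos rfl, if_pos rfl]
              have := Real.mul_self_sqrt (show 0 ≤ s / (Fintype.card K * (s + 1)) by positivity)
              linear_combination (if i.1 = j.1 then (1 : ℝ) else 0) * this
            · rw [if_neg hx, if_neg hx]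
              ring
          rw [Finset.sum_congr rfl fun x _ => this x]
          simp
        · simp only [RCLike.inner_apply, conj_trivial, Finset.univ_unique, Finset.sum_singleton]
          exact Real.mul_self_sqrt (by positivity)
    rw [h1, hv, Cover_P_apply]
    field_simp
    ring
  have h2 : ∀ u : K, u + u = 0 := fun u => CharTwo.add_self_eq_zero u
  refine ⟨k + (2 * Fintype.card K + 1), 2 * Fintype.card K * Fintype.card K,
    Conf.of_family w ?_ ?_ ?_ _ _ ?_ ?_, ?_, ?_⟩
  · intro i
    rw [hw, if_pos rfl, if_pos (by rw [h2, B_self])]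
    field_simp
  · intro i j hij
    rw [hw, if_neg hij]
    constructor
    · split_ifs <;> positivity
    · rw [div_lt_one (by positivity)]
      split_ifs <;> linarith
  · intro i j l hij hil hjl
    rw [hw, hw, hw, if_neg hij, if_neg hil, if_neg hjl]
    by_contra hcon
    push Not at hcon
    obtain ⟨a1, a2, a3⟩ := hcon
    have b1 : i.2 + j.2 = B i.1 j.1 := by
      by_contra h; apply a1; rw [if_neg h]; simp
    have b2 : i.2 + l.2 = B i.1 l.1 := by
      by_contra h; apply a2; rw [if_neg h]; simp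
    have b3 : j.2 + l.2 = B j.1 l.1 := by
      by_contra h; apply a3; rw [if_neg h]; simp
    have hne : ∀ x y : (K × Bool) × K, x ≠ y → x.2 + y.2 = B x.1 y.1 → x.1 ≠ y.1 := by
      intro x y hxy h h'
      apply hxy
      refine Prod.ext h' ?_
      rw [h', B_self] at h
      linear_combination h - h2 y.2
    refine no_triangle hK (hne _ _ hij b1) (hne _ _ hil b2) (hne _ _ hjl b3) ?_
    rw [← b1, ← b2, ← b3]
    linear_combination h2 i.2 + h2 j.2 + h2 l.2
  · simp [mul_comm]
  · simp
    ring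
  · push_cast
    rw [hk, ← hs2]
    ring
  · push_cast
    have : (Fintype.card K : ℝ) = s ^ 2 / 2 := by linarith
    rw [this]
    ring

end AE
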