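import Mathlib

/-!
# Almost-equidistant diameter sets: common definitions
-/

namespace AE

open scoped InnerProductSpace

/-- Every three distinct points of `V` include two at distance exactly one. -/
def AlmostEquidistant {d : ℕ} (V : Finset (EuclideanSpace ℝ (Fin d))) : Prop :=
  ∀ x ∈ V, ∀ y ∈ V, ∀ z ∈ V, x ≠ y → x ≠ z → y ≠ z →
    dist x y = 1 ∨ dist x z = 1 ∨ dist y z = 1

/-- An almost-equidistant diameter set: almost-equidistant and of diameter exactly one. -/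
def IsAEDiam {d : ℕ} (V : Finset (EuclideanSpace ℝ (Fin d))) : Prop :=
  AlmostEquidistant V ∧ Metric.diam (V : Set (EuclideanSpace ℝ (Fin d))) = 1

/-- `Conf D n`: there are `n` unit vectors in `ℝ^D` with pairwise inner products in `[0,1)` and
such that among any three of them two are orthogonal. -/
def Conf (D n : ℕ) : Prop :=
  ∃ u : Fin n → EuclideanSpace ℝ (Fin D), (∀ i, ⟪u i, u i⟫_ℝ = 1) ∧
    (∀ i j, i ≠ j → 0 ≤ ⟪u i, u j⟫_ℝ ∧ ⟪u i, u j⟫_ℝ < 1) ∧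
    (∀ i j k, i ≠ j → i ≠ k → j ≠ k →
      ⟪u i, u j⟫_ℝ = 0 ∨ ⟪u i, u k⟫_ℝ = 0 ∨ ⟪u j, u k⟫_ℝ = 0)

/-- The polarity `B` on `K × Bool` (de Caen-Mathon-Moorhouse). -/
def B {K : Type*} [Field K] (x y : K × Bool) : K :=
  x.1 ^ 2 * y.1 + x.1 * y.1 ^ 2 + if x.2 = y.2 then 0 else x.1 ^ 3 + y.1 ^ 3

end AE
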