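import Mathlib

/-!
[AE-G] Gram vectors of a projection.
Proof: `T = Matrix.toLin' P` (or `P` acting on `EuclideanSpace ℝ ι`) is an idempotent linear map, so
it is the projection onto its range `W` and `finrank W = trace P ≤ k`
(`LinearMap.IsProj.trace`, `LinearMap.IsIdempotentElem...`, `Matrix.trace_toLin'_eq`).
Choose a linear isometry `W →ₗᵢ EuclideanSpace ℝ (Fin k)` (stdOrthonormalBasis of `W`
and the inclusion `Fin (finrank W) → Fin k`), let `u i` be the image of the `i`-th column `P e_i ∈ W`;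
then `⟪u i, u j⟫ = ⟪P e_i, P e_j⟫ = (Pᵀ P) i j = (P P) i j = P i j`.
-/

namespace AE

open scoped InnerProductSpace

theorem exists_gram_of_proj {ι : Type*} [Fintype ι] [DecidableEq ι] (P : Matrix ι ι ℝ)
    (hs : P.IsSymm) (hp : P * P = P) (k : ℕ) (hk : P.trace ≤ k) :
    ∃ u : ι → EuclideanSpace ℝ (Fin k), ∀ i j, ⟪u i, u j⟫_ℝ = P i j := by
  set T : EuclideanSpace ℝ ι →ₗ[ℝ] EuclideanSpace ℝ ι := Matrix.toEuclideanLin P with hT
  have hTT : IsIdempotentElem T := by
    apply LinearMap.ext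
    intro x
    have h1 : T (T x) = T x := by
      rw [hT, Matrix.toLpLin_apply, Matrix.toLpLin_apply]
      change WithLp.toLp 2 (P.mulVec (P.mulVec (WithLp.ofLp x))) = _
      rw [Matrix.mulVec_mulVec, hp]
    exact h1
  have hproj : LinearMap.IsProj (LinearMap.range T) T := LinearMap.IsIdempotentElem.isProj_range T hTT
  have htr : ((Module.finrank ℝ (LinearMap.range T) : ℕ) : ℝ) = P.trace := by
    rw [← hproj.trace, hT, Matrix.toEuclideanLin_eq_toLin_orthonormal, Matrix.trace_toLin_eq]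
  have hm : Module.finrank ℝ (LinearMap.range T) ≤ k := by
    rw [← htr] at hk
    exact_mod_cast hk
  set m : ℕ := Module.finrank ℝ (LinearMap.range T) with hmd
  set b : OrthonormalBasis (Fin m) ℝ (LinearMap.range T) :=
    stdOrthonormalBasis ℝ (LinearMap.range T) with hb
  set w : ι → LinearMap.range T := fun i =>
    ⟨T (EuclideanSpace.single i 1), LinearMap.mem_range_self T _⟩ with hw
  refine ⟨fun i => WithLp.toLp 2 fun a : Fin k =>
    if h : (a : ℕ) < m then ⟪b ⟨a, h⟩, w i⟫_ℝ else 0, fun i j => ?_⟩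
  have hsum : ∑ a : Fin m, ⟪w i, b a⟫_ℝ * ⟪b a, w j⟫_ℝ = ∑ a : Fin k,
      (if h : (a : ℕ) < m then ⟪b ⟨a, h⟩, w j⟫_ℝ else 0) *
        (if h : (a : ℕ) < m then ⟪b ⟨a, h⟩, w i⟫_ℝ else 0) := by
    apply Fintype.sum_of_injective (Fin.castLE hm) (Fin.castLE_injective hm)
    · intro a ha
      have h1 : ¬ ((a : ℕ) < m) := by
        intro h2
        exact ha ⟨⟨a, h2⟩, rfl⟩
      rw [dif_neg h1, zero_mul]
    · intro a
      have h1 : ((Fin.castLE hm a : Fin k) : ℕ) < m := a.2
      rw [dif_pos h1, dif_pos h1]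
      change _ = ⟪b a, w j⟫_ℝ * ⟪b a, w i⟫_ℝ
      rw [real_inner_comm (b a) (w i), mul_comm]
  have hin : ⟪w i, w j⟫_ℝ = P i j := by
    have h1 : ⟪w i, w j⟫_ℝ =
        ⟪T (EuclideanSpace.single i (1 : ℝ)), T (EuclideanSpace.single j (1 : ℝ))⟫_ℝ := rfl
    have h2 : ∀ l a, (T (EuclideanSpace.single l (1 : ℝ))) a = P a l := by
      intro l a
      rw [hT, Matrix.toLpLin_apply]
      simp
    rw [h1, PiLp.inner_apply]
    simp only [h2, RCLike.inner_apply, conj_trivial]
    have h3 : (P * P) i j = P i j := by rw [hp]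
    rw [Matrix.mul_apply] at h3
    rw [← h3]
    apply Finset.sum_congr rfl
    intro a _
    rw [← hs.apply i a, mul_comm]
  rw [← hin, ← b.sum_inner_mul_inner (w i) (w j), hsum, PiLp.inner_apply]
  apply Finset.sum_congr rfl
  intro a _
  simp only [RCLike.inner_apply, conj_trivial]

end AE
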