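import Pool.Agent.MP_8e9e20_co.AE.Def

/-!
[AE-S] exact sets in dimensions 1 and 2 (so that `2d+1` is attained).
* `d = 1`: the points `0, 1/2, 1` of `ℝ^1`.
* `d = 2`: the regular pentagon with diagonals `1`: points `(R cos(2πk/5), R sin(2πk/5))`, `k=0..4`, where
  `R = 1/(2 sin(2π/5))`; the distance of `k` and `l` is `2R |sin(π(k-l)/5)|`, which is `1` for `k-l = ±2 (mod 5)` and
  `< 1` for `k-l=±1`. Explicit coordinates with `√5` are an alternative, e.g. put the vertices at
  `(±1/2, 0)`, `(0, h)`, ... and check all ten distances by `nlinarith/ring_nf` with `√5^2 = 5`.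
-/

namespace AE

theorem S_aux {d n : ℕ} (p : Fin n → EuclideanSpace ℝ (Fin d))
    (hpos : ∀ i j, i < j → 0 < dist (p i) (p j) ^ 2)
    (hle : ∀ i j, i < j → dist (p i) (p j) ^ 2 ≤ 1)
    (h3 : ∀ i j k, i < j → j < k → dist (p i) (p j) ^ 2 = 1 ∨ dist (p i) (p k) ^ 2 = 1 ∨
      dist (p j) (p k) ^ 2 = 1)
    (h1 : ∃ i j, dist (p i) (p j) ^ 2 = 1) :
    ∃ V : Finset (EuclideanSpace ℝ (Fin d)), IsAEDiam V ∧ V.card = n := by
  classical
  have hone : ∀ i j, dist (p i) (p j) ^ 2 = 1 → dist (p i) (p j) = 1 := by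
    intro i j h
    have h0 : 0 ≤ dist (p i) (p j) := dist_nonneg
    nlinarith
  have hinj : Function.Injective p := by
    intro i j hij
    by_contra hne
    rcases lt_or_gt_of_ne hne with h | h
    · have := hpos i j h
      rw [hij, dist_self] at this
      norm_num at this
    · have := hpos j i h
      rw [hij, dist_self] at this
      norm_num at this
  have hle' : ∀ i j, dist (p i) (p j) ≤ 1 := by
    intro i j
    have h0 : 0 ≤ dist (p i) (p j) := dist_nonneg
    rcases lt_trichotomy i j with h | h | h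
    · have := hle i j h
      nlinarith
    · rw [h, dist_self]; norm_num
    · have := hle j i h
      rw [dist_comm (p i) (p j)] at h0 ⊢
      nlinarith
  have h3' : ∀ i j k, i < j → j < k → dist (p i) (p j) = 1 ∨ dist (p i) (p k) = 1 ∨
      dist (p j) (p k) = 1 := by
    intro i j k hij hjk
    rcases h3 i j k hij hjk with h | h | h
    · exact Or.inl (hone _ _ h)
    · exact Or.inr (Or.inl (hone _ _ h))
    · exact Or.inr (Or.inr (hone _ _ h))
  refine ⟨Finset.univ.image p, ⟨?_, ?_⟩, ?_⟩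
  · intro x hx y hy z hz hxy hxz hyz
    obtain ⟨i, -, rfl⟩ := Finset.mem_image.mp hx
    obtain ⟨j, -, rfl⟩ := Finset.mem_image.mp hy
    obtain ⟨k, -, rfl⟩ := Finset.mem_image.mp hz
    have hij : i ≠ j := fun h => hxy (by rw [h])
    have hik : i ≠ k := fun h => hxz (by rw [h])
    have hjk : j ≠ k := fun h => hyz (by rw [h])
    rcases lt_or_gt_of_ne hij with a | a <;> rcases lt_or_gt_of_ne hik with b | b <;>
      rcases lt_or_gt_of_ne hjk with c | c
    · exact h3' i j k a c
    · rcases h3' i k j b c with h | h | h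
      · exact Or.inr (Or.inl h)
      · exact Or.inl h
      · rw [dist_comm] at h; exact Or.inr (Or.inr h)
    · exact absurd (lt_trans (lt_trans a c) b) (lt_irrefl _)
    · rcases h3' k i j b a with h | h | h
      · rw [dist_comm] at h; exact Or.inr (Or.inl h)
      · rw [dist_comm] at h; exact Or.inr (Or.inr h)
      · exact Or.inl h
    · rcases h3' j i k a b with h | h | h
      · rw [dist_comm] at h; exact Or.inl h
      · exact Or.inr (Or.inr h)
      · exact Or.inr (Or.inl h)
    · exact absurd (lt_trans (lt_trans a b) c) (lt_irrefl _)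
    · rcases h3' j k i c b with h | h | h
      · exact Or.inr (Or.inr h)
      · rw [dist_comm] at h; exact Or.inl h
      · rw [dist_comm] at h; exact Or.inr (Or.inl h)
    · rcases h3' k j i c a with h | h | h
      · rw [dist_comm] at h; exact Or.inr (Or.inr h)
      · rw [dist_comm] at h; exact Or.inr (Or.inl h)
      · rw [dist_comm] at h; exact Or.inl h
  · apply le_antisymm
    · apply Metric.diam_le_of_forall_dist_le (by norm_num)
      intro x hx y hy
      rw [Finset.mem_coe] at hx hy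
      obtain ⟨i, -, rfl⟩ := Finset.mem_image.mp hx
      obtain ⟨j, -, rfl⟩ := Finset.mem_image.mp hy
      exact hle' i j
    · obtain ⟨i, j, h⟩ := h1
      rw [← hone i j h]
      apply Metric.dist_le_diam_of_mem
      · exact (Finset.finite_toSet _).isBounded
      · rw [Finset.mem_coe]; exact Finset.mem_image_of_mem p (Finset.mem_univ i)
      · rw [Finset.mem_coe]; exact Finset.mem_image_of_mem p (Finset.mem_univ j)
  · rw [Finset.card_image_of_injective _ hinj, Finset.card_univ, Fintype.card_fin]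

theorem exists_one : ∃ V : Finset (EuclideanSpace ℝ (Fin 1)), IsAEDiam V ∧ V.card = 3 := by
  have key : ∀ a b : ℝ, dist (WithLp.toLp 2 (fun _ => a) : EuclideanSpace ℝ (Fin 1))
      (WithLp.toLp 2 (fun _ => b)) ^ 2 = (a - b) ^ 2 := by
    intro a b
    rw [EuclideanSpace.dist_eq, Real.sq_sqrt (by positivity)]
    simp [Real.dist_eq, sq_abs]
  set A : EuclideanSpace ℝ (Fin 1) := WithLp.toLp 2 (fun _ => (0 : ℝ)) with hA
  set Bp : EuclideanSpace ℝ (Fin 1) := WithLp.toLp 2 (fun _ => (1 / 2 : ℝ)) with hB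
  set C : EuclideanSpace ℝ (Fin 1) := WithLp.toLp 2 (fun _ => (1 : ℝ)) with hC
  have h01 : dist A Bp ^ 2 = 1 / 4 := by rw [hA, hB, key]; norm_num
  have h02 : dist A C ^ 2 = 1 := by rw [hA, hC, key]; norm_num
  have h12 : dist Bp C ^ 2 = 1 / 4 := by rw [hB, hC, key]; norm_num
  apply S_aux (n := 3) ![A, Bp, C]
  · intro i j hij
    fin_cases i <;> fin_cases j <;> first | (exfalso; revert hij; decide) | skip
    · exact lt_of_lt_of_eq (by norm_num) h01.symm
    · exact lt_of_lt_of_eq (by norm_num) h02.symm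
    · exact lt_of_lt_of_eq (by norm_num) h12.symm
  · intro i j hij
    fin_cases i <;> fin_cases j <;> first | (exfalso; revert hij; decide) | skip
    · exact le_of_eq_of_le h01 (by norm_num)
    · exact le_of_eq h02
    · exact le_of_eq_of_le h12 (by norm_num)
  · intro i j k hij hjk
    fin_cases i <;> fin_cases j <;> first | (exfalso; revert hij; decide) | skip
    all_goals fin_cases k <;> first | (exfalso; revert hjk; decide) | skip
    exact Or.inr (Or.inl h02)
  · exact ⟨0, 2, h02⟩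

theorem exists_two : ∃ V : Finset (EuclideanSpace ℝ (Fin 2)), IsAEDiam V ∧ V.card = 5 := by
  obtain ⟨s, hs0, hs1, hs⟩ : ∃ s : ℝ, 0 < s ∧ s < 1 ∧ s ^ 2 = 1 - s := by
    have h5 : (Real.sqrt 5) ^ 2 = 5 := Real.sq_sqrt (by norm_num)
    have h0 : 0 ≤ Real.sqrt 5 := Real.sqrt_nonneg 5
    refine ⟨(Real.sqrt 5 - 1) / 2, ?_, ?_, ?_⟩
    · nlinarith
    · nlinarith
    · nlinarith
  obtain ⟨h, hh0, hh⟩ : ∃ h : ℝ, 0 ≤ h ∧ h ^ 2 = (3 + s) / 4 :=
    ⟨Real.sqrt ((3 + s) / 4), Real.sqrt_nonneg _, Real.sq_sqrt (by linarith)⟩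
  obtain ⟨y, hy0, hy⟩ : ∃ y : ℝ, 0 ≤ y ∧ y ^ 2 = (2 - s) / 4 :=
    ⟨Real.sqrt ((2 - s) / 4), Real.sqrt_nonneg _, Real.sq_sqrt (by linarith)⟩
  have hhy : h * y = 1 / 4 + s / 2 := by
    have h1 : (h * y) ^ 2 = (1 / 4 + s / 2) ^ 2 := by
      rw [mul_pow, hh, hy]; nlinarith
    have h2 : 0 ≤ h * y := mul_nonneg hh0 hy0
    have h3 : 0 ≤ 1 / 4 + s / 2 := by linarith
    exact (pow_left_inj₀ h2 h3 (by norm_num)).mp h1
  have key : ∀ a b c d : ℝ, dist (!₂[a, b] : EuclideanSpace ℝ (Fin 2)) !₂[c, d] ^ 2 =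
      (a - c) ^ 2 + (b - d) ^ 2 := by
    intro a b c d
    rw [EuclideanSpace.dist_eq, Real.sq_sqrt (by positivity)]
    simp [Fin.sum_univ_two, Real.dist_eq, sq_abs]
  set A : EuclideanSpace ℝ (Fin 2) := !₂[0, h] with hA
  set Bp : EuclideanSpace ℝ (Fin 2) := !₂[-(1 / 2), y] with hB
  set C : EuclideanSpace ℝ (Fin 2) := !₂[1 / 2, y] with hC
  set D : EuclideanSpace ℝ (Fin 2) := !₂[-(s / 2), 0] with hD
  set E : EuclideanSpace ℝ (Fin 2) := !₂[s / 2, 0] with hE
  have hAB : dist A Bp ^ 2 = 1 - s := by rw [hA, hB, key]; nlinarith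
  have hAC : dist A C ^ 2 = 1 - s := by rw [hA, hC, key]; nlinarith
  have hAD : dist A D ^ 2 = 1 := by rw [hA, hD, key]; nlinarith
  have hAE : dist A E ^ 2 = 1 := by rw [hA, hE, key]; nlinarith
  have hBC : dist Bp C ^ 2 = 1 := by rw [hB, hC, key]; nlinarith
  have hBD : dist Bp D ^ 2 = 1 - s := by rw [hB, hD, key]; nlinarith
  have hBE : dist Bp E ^ 2 = 1 := by rw [hB, hE, key]; nlinarith
  have hCD : dist C D ^ 2 = 1 := by rw [hC, hD, key]; nlinarith
  have hCE : dist C E ^ 2 = 1 - s := by rw [hC, hE, key]; nlinarith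
  have hDE : dist D E ^ 2 = 1 - s := by rw [hD, hE, key]; nlinarith
  have hs' : 0 < 1 - s := by linarith
  have hs'' : 1 - s ≤ 1 := by linarith
  apply S_aux (n := 5) ![A, Bp, C, D, E]
  · intro i j hij
    fin_cases i <;> fin_cases j <;> first | (exfalso; revert hij; decide) | skip
    · exact lt_of_lt_of_eq hs' hAB.symm
    · exact lt_of_lt_of_eq hs' hAC.symm
    · exact lt_of_lt_of_eq one_pos hAD.symm
    · exact lt_of_lt_of_eq one_pos hAE.symm
    · exact lt_of_lt_of_eq one_pos hBC.symm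
    · exact lt_of_lt_of_eq hs' hBD.symm
    · exact lt_of_lt_of_eq one_pos hBE.symm
    · exact lt_of_lt_of_eq one_pos hCD.symm
    · exact lt_of_lt_of_eq hs' hCE.symm
    · exact lt_of_lt_of_eq hs' hDE.symm
  · intro i j hij
    fin_cases i <;> fin_cases j <;> first | (exfalso; revert hij; decide) | skip
    · exact le_of_eq_of_le hAB hs''
    · exact le_of_eq_of_le hAC hs''
    · exact le_of_eq hAD
    · exact le_of_eq hAE
    · exact le_of_eq hBC
    · exact le_of_eq_of_le hBD hs''
    · exact le_of_eq hBE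
    · exact le_of_eq hCD
    · exact le_of_eq_of_le hCE hs''
    · exact le_of_eq_of_le hDE hs''
  · intro i j k hij hjk
    fin_cases i <;> fin_cases j <;> first | (exfalso; revert hij; decide) | skip
    all_goals fin_cases k <;> first | (exfalso; revert hjk; decide) | skip
    all_goals
      first
      | exact Or.inl hAD
      | exact Or.inl hAE
      | exact Or.inl hBC
      | exact Or.inl hBE
      | exact Or.inl hCD
      | exact Or.inr (Or.inl hAD)
      | exact Or.inr (Or.inl hAE)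
      | exact Or.inr (Or.inl hBC)
      | exact Or.inr (Or.inl hBE)
      | exact Or.inr (Or.inl hCD)
      | exact Or.inr (Or.inr hBC)
  · exact ⟨0, 3, hAD⟩

end AE
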