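import Mathlib

/-!
[AE-U1] the spectral inequality (upper bound), matrix form.
`G` is a real symmetric `n × n` matrix with `G i i = 1`, `0 ≤ G i j < 1` (`i ≠ j`), and no three pairwise distinct
indices `i,j,k` with all of `G i j, G j k, G i k` nonzero; `rank G ≤ d + 2`; `G` is positive semidefinite on
the vectors with coordinate sum zero; and if `G` is positive semidefinite then `rank G ≤ d + 1`.
Then `n ≤ 2 d + 1` (for `n ≥ 1`... the case `n = 0` is trivial).
-/

namespace AE

open Matrix Finset

theorem u1_diag {n : ℕ} (G : Matrix (Fin n) (Fin n) ℝ) (hs : G.IsSymm) :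
    ∃ (U : Matrix (Fin n) (Fin n) ℝ) (γ : Fin n → ℝ), Uᵀ * U = 1 ∧ U * Uᵀ = 1 ∧
      G = U * diagonal γ * Uᵀ ∧ G.rank = (univ.filter fun i => γ i ≠ 0).card := by
  have hH : G.IsHermitian := by
    rw [Matrix.IsHermitian, Matrix.conjTranspose_eq_transpose_of_trivial]
    exact hs
  refine ⟨(hH.eigenvectorUnitary : Matrix (Fin n) (Fin n) ℝ), hH.eigenvalues, ?_, ?_, ?_, ?_⟩
  · have h := Matrix.UnitaryGroup.star_mul_self hH.eigenvectorUnitary
    rwa [Matrix.star_eq_conjTranspose, Matrix.conjTranspose_eq_transpose_of_trivial] at h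
  · have h := (Matrix.mem_unitaryGroup_iff (A := (hH.eigenvectorUnitary : Matrix (Fin n) (Fin n) ℝ))).1
      hH.eigenvectorUnitary.2
    rwa [Matrix.star_eq_conjTranspose, Matrix.conjTranspose_eq_transpose_of_trivial] at h
  · have h := hH.spectral_theorem
    rw [Unitary.conjStarAlgAut_apply] at h
    rw [Matrix.star_eq_conjTranspose, Matrix.conjTranspose_eq_transpose_of_trivial] at h
    exact h
  · rw [hH.rank_eq_card_non_zero_eigs, Fintype.card_subtype]

theorem u1_split {n : ℕ} (k : Fin n → ℝ) {a b : Fin n} (hab : a ≠ b) :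
    ∑ i, k i = k a + k b + ∑ i ∈ (univ.erase a).erase b, k i := by
  rw [← Finset.add_sum_erase univ k (mem_univ a),
    ← Finset.add_sum_erase (univ.erase a) k (mem_erase.2 ⟨hab.symm, mem_univ b⟩)]
  ring

theorem u1_two_le {n : ℕ} (k : Fin n → ℝ) {a b : Fin n} (hab : a ≠ b)
    (h : ∀ i, i ≠ a → i ≠ b → 0 ≤ k i) : k a + k b ≤ ∑ i, k i := by
  rw [u1_split k hab]
  have : 0 ≤ ∑ i ∈ (univ.erase a).erase b, k i := by
    apply sum_nonneg
    intro i hi
    rw [mem_erase, mem_erase] at hi
    exact h i hi.2.1 hi.1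
  linarith

theorem u1_two_eq {n : ℕ} (k : Fin n → ℝ) {a b : Fin n} (hab : a ≠ b)
    (h : ∀ i, i ≠ a → i ≠ b → 0 ≤ k i) (hle : ∑ i, k i ≤ k a + k b) :
    ∀ i, i ≠ a → i ≠ b → k i = 0 := by
  have h0 : ∀ i ∈ (univ.erase a).erase b, 0 ≤ k i := by
    intro i hi
    rw [mem_erase, mem_erase] at hi
    exact h i hi.2.1 hi.1
  have h1 := u1_split k hab
  have h2 : ∑ i ∈ (univ.erase a).erase b, k i = 0 :=
    le_antisymm (by linarith) (sum_nonneg h0)
  intro i hia hib
  exact (sum_eq_zero_iff_of_nonneg h0).1 h2 i (by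
    rw [mem_erase, mem_erase]
    exact ⟨hib, hia, mem_univ i⟩)

section spec

variable {n : ℕ} {G U : Matrix (Fin n) (Fin n) ℝ} {γ : Fin n → ℝ}

theorem u1_tr (h1 : Uᵀ * U = 1) (w : Fin n → ℝ) : trace (U * diagonal w * Uᵀ) = ∑ i, w i := by
  rw [Matrix.trace_mul_comm, ← Matrix.mul_assoc, h1, Matrix.one_mul, Matrix.trace_diagonal]

theorem u1_mul (h1 : Uᵀ * U = 1) (v w : Fin n → ℝ) :
    (U * diagonal v * Uᵀ) * (U * diagonal w * Uᵀ) = U * diagonal (fun i => v i * w i) * Uᵀ := by
  calc (U * diagonal v * Uᵀ) * (U * diagonal w * Uᵀ)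
      = U * diagonal v * (Uᵀ * U) * diagonal w * Uᵀ := by simp only [Matrix.mul_assoc]
    _ = U * (diagonal v * diagonal w) * Uᵀ := by rw [h1, Matrix.mul_one, Matrix.mul_assoc U]
    _ = _ := by rw [Matrix.diagonal_mul_diagonal]

/-- the quadratic form in the eigencoordinates -/
theorem u1_form (hG : G = U * diagonal γ * Uᵀ) (x : Fin n → ℝ) :
    x ⬝ᵥ (G.mulVec x) = ∑ i, γ i * (Uᵀ.mulVec x i) ^ 2 := by
  rw [hG, ← Matrix.mulVec_mulVec, ← Matrix.mulVec_mulVec, Matrix.dotProduct_mulVec,
    ← Matrix.mulVec_transpose, dotProduct]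
  apply sum_congr rfl
  intro i _
  rw [Matrix.mulVec_diagonal]
  ring

theorem u1_norm (h2 : U * Uᵀ = 1) (x : Fin n → ℝ) :
    ∑ i, (Uᵀ.mulVec x i) ^ 2 = ∑ i, x i ^ 2 := by
  have e : ∀ y : Fin n → ℝ, ∑ i, y i ^ 2 = y ⬝ᵥ y := by
    intro y
    rw [dotProduct]
    exact sum_congr rfl fun i _ => sq (y i)
  rw [e, e, Matrix.dotProduct_mulVec, ← Matrix.mulVec_transpose, Matrix.transpose_transpose,
    Matrix.mulVec_mulVec, h2, Matrix.one_mulVec]

end spec

theorem u1_mono {ν t : ℝ} (hν : 0 < ν) (ht : ν + 2 ≤ t) :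
    4 ≤ (t - 2) ^ 2 * (t + 1) + (-ν - 2) ^ 2 * (-ν + 1) := by
  obtain ⟨δ, rfl⟩ : ∃ δ, t = ν + 2 + δ := ⟨t - (ν + 2), by ring⟩
  have hδ : 0 ≤ δ := by linarith
  have : (ν + 2 + δ - 2) ^ 2 * (ν + 2 + δ + 1) + (-ν - 2) ^ 2 * (-ν + 1) - 4 =
      δ * (3 * ν ^ 2 + 3 * ν * δ + δ ^ 2 + 6 * ν + 3 * δ) := by ring
  have h2 : 0 ≤ δ * (3 * ν ^ 2 + 3 * ν * δ + δ ^ 2 + 6 * ν + 3 * δ) := by positivity
  linarith

theorem u1_mono_eq {ν t : ℝ} (hν : 0 < ν) (ht : ν + 2 ≤ t)
    (h : (t - 2) ^ 2 * (t + 1) + (-ν - 2) ^ 2 * (-ν + 1) ≤ 4) : t = ν + 2 := by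
  obtain ⟨δ, rfl⟩ : ∃ δ, t = ν + 2 + δ := ⟨t - (ν + 2), by ring⟩
  have hδ : 0 ≤ δ := by linarith
  have h1 : (ν + 2 + δ - 2) ^ 2 * (ν + 2 + δ + 1) + (-ν - 2) ^ 2 * (-ν + 1) - 4 =
      δ * (3 * ν ^ 2 + 3 * ν * δ + δ ^ 2 + 6 * ν + 3 * δ) := by ring
  rcases hδ.eq_or_lt with h0 | h0
  · rw [← h0, add_zero]
  · exfalso
    have h2 : 0 < δ * (3 * ν ^ 2 + 3 * ν * δ + δ ^ 2 + 6 * ν + 3 * δ) := by positivity
    linarith

theorem upper_matrix {n d : ℕ} (G : Matrix (Fin n) (Fin n) ℝ) (hs : G.IsSymm)
    (hdiag : ∀ i, G i i = 1) (hpos : ∀ i j, i ≠ j → 0 ≤ G i j) (hlt : ∀ i j, i ≠ j → G i j < 1)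
    (htri : ∀ i j k, i ≠ j → i ≠ k → j ≠ k → G i j = 0 ∨ G i k = 0 ∨ G j k = 0)
    (hrank : G.rank ≤ d + 2)
    (hperp : ∀ x : Fin n → ℝ, ∑ i, x i = 0 → 0 ≤ x ⬝ᵥ (G.mulVec x))
    (hpsd : (∀ x : Fin n → ℝ, 0 ≤ x ⬝ᵥ (G.mulVec x)) → G.rank ≤ d + 1) :
    n ≤ 2 * d + 1 := by
  classical
  by_contra hn
  push Not at hn
  have hn' : (2 * d + 2 : ℝ) ≤ n := by exact_mod_cast hn
  obtain ⟨U, γ, hU1, hU2, hG, hR⟩ := u1_diag G hs
  have hsym : ∀ i j, G i j = G j i := fun i j => (hs.apply i j).symm
  set S : ℝ := ∑ i, ∑ j, G i j ^ 2 with hS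
  set N : ℝ := ∑ i, ∑ j, G i j with hN
  -- the three traces
  have t1 : ∑ i, γ i = n := by
    have h := u1_tr hU1 γ
    rw [← hG, Matrix.trace] at h
    rw [← h]
    simp [hdiag]
  have t2 : ∑ i, γ i ^ 2 = S := by
    have h := u1_tr hU1 (fun i => γ i * γ i)
    rw [← u1_mul hU1, ← hG, Matrix.trace] at h
    rw [hS]
    have e : ∑ i, γ i ^ 2 = ∑ i, γ i * γ i := sum_congr rfl fun i _ => sq _
    rw [e, ← h]
    apply sum_congr rfl
    intro i _
    rw [Matrix.diag_apply, Matrix.mul_apply]
    apply sum_congr rfl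
    intro j _
    rw [hsym j i, sq]
  have t3 : ∑ i, γ i ^ 3 = 3 * S - 2 * n := by
    have h := u1_tr hU1 (fun i => γ i * γ i * γ i)
    have e0 : (fun i => γ i * γ i * γ i) = fun i => (fun i => γ i * γ i) i * γ i := rfl
    rw [e0, ← u1_mul hU1, ← u1_mul hU1, ← hG, Matrix.trace] at h
    have e : ∑ i, γ i ^ 3 = ∑ i, γ i * γ i * γ i := sum_congr rfl fun i _ => by ring
    rw [e, ← h]
    have key : ∀ i j k, G i j * G j k * G k i = (if i = j then G i k ^ 2 else 0) +
        (if j = k then G i j ^ 2 else 0) + (if k = i then G i j ^ 2 else 0) -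
        (if i = j then (if j = k then 2 else 0) else 0) := by
      intro i j k
      by_cases h1 : i = j
      · subst h1
        by_cases h2 : i = k
        · subst h2
          simp only [if_true, hdiag]
          norm_num
        · rw [if_pos rfl, if_neg h2, if_neg (Ne.symm h2), if_pos rfl, if_neg h2, hdiag, hsym k i]
          ring
      · by_cases h2 : j = k
        · subst h2
          rw [if_neg h1, if_pos rfl, if_neg (Ne.symm h1), if_neg h1, hdiag, hsym j i]
          ring
        · by_cases h3 : k = i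
          · subst h3
            rw [if_neg h1, if_neg h2, if_pos rfl, if_neg h1, hdiag, hsym j k]
            ring
          · rw [if_neg h1, if_neg h2, if_neg h3, if_neg h1]
            rcases htri i j k h1 (Ne.symm h3) h2 with h4 | h4 | h4
            · rw [h4]; ring
            · rw [hsym k i, h4]; ring
            · rw [h4]; ring
    have e1 : ∑ i, Matrix.diag (G * G * G) i = ∑ i, ∑ j, ∑ k, G i j * G j k * G k i := by
      apply sum_congr rfl
      intro i _
      rw [Matrix.diag_apply, Matrix.mul_assoc, Matrix.mul_apply]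
      apply sum_congr rfl
      intro j _
      rw [Matrix.mul_apply, mul_sum]
      apply sum_congr rfl
      intro k _
      ring
    rw [e1]
    simp only [key, sum_add_distrib, sum_sub_distrib]
    have f1 : ∑ i, ∑ j, ∑ k, (if i = j then G i k ^ 2 else 0) = S := by
      apply sum_congr rfl
      intro i _
      rw [sum_comm]
      apply sum_congr rfl
      intro k _
      simp
    have f2 : ∑ i, ∑ j, ∑ k, (if j = k then G i j ^ 2 else 0) = S := by
      apply sum_congr rfl
      intro i _
      apply sum_congr rfl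
      intro j _
      simp
    have f3 : ∑ i, ∑ j, ∑ k, (if k = i then G i j ^ 2 else 0) = S := by
      apply sum_congr rfl
      intro i _
      apply sum_congr rfl
      intro j _
      simp
    have f4 : ∑ i : Fin n, ∑ j, ∑ k, (if i = j then (if j = k then (2 : ℝ) else 0) else 0) =
        2 * n := by
      have : ∀ i : Fin n, ∑ j, ∑ k, (if i = j then (if j = k then (2 : ℝ) else 0) else 0) = 2 := by
        intro i
        rw [sum_eq_single i]
        · simp
        · intro j _ hj
          simp [Ne.symm hj]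
        · intro h; exact absurd (mem_univ _) h
      simp only [this]
      simp [mul_comm]
    rw [f1, f2, f3, f4]
    ring
  -- the function `f` and the excess `h`
  have hf : ∑ i, ((γ i - 2) ^ 2 * (γ i + 1)) = (2 : ℝ) * (n : ℝ) := by
    have e : ∀ i, (γ i - 2) ^ 2 * (γ i + 1) = γ i ^ 3 - 3 * γ i ^ 2 + 4 := fun i => by ring
    simp only [e, sum_add_distrib, sum_sub_distrib, ← mul_sum]
    rw [t2, t3]
    simp
    ring
  set h : Fin n → ℝ := fun i => (γ i - 2) ^ 2 * (γ i + 1) - (if γ i = 0 then 4 else 0) with hh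
  have hcount : ∑ i, (if γ i = 0 then (4 : ℝ) else 0) = 4 * (n - G.rank) := by
    have e1 : ∀ i, (if γ i = 0 then (4 : ℝ) else 0) = 4 - (if γ i ≠ 0 then 4 else 0) := by
      intro i
      by_cases hi : γ i = 0
      · rw [if_pos hi, if_neg (not_not.2 hi)]; ring
      · rw [if_neg hi, if_pos hi]; ring
    simp only [e1, sum_sub_distrib]
    rw [← sum_filter, sum_const, sum_const, card_univ, Fintype.card_fin, ← hR]
    simp only [nsmul_eq_mul]
    ring
  have hsumh : ∑ i, h i = 4 * (G.rank : ℝ) - 2 * n := by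
    rw [hh, sum_sub_distrib, hf, hcount]
    ring
  have hnonneg : ∀ i, 0 ≤ γ i → 0 ≤ h i := by
    intro i hi
    simp only [hh]
    split_ifs with h0
    · rw [h0]; norm_num
    · have := mul_nonneg (sq_nonneg (γ i - 2)) (by linarith : 0 ≤ γ i + 1)
      linarith
  have hzero : ∀ i, 0 ≤ γ i → h i = 0 → γ i = 0 ∨ γ i = 2 := by
    intro i hi h0
    by_cases hc : γ i = 0
    · exact Or.inl hc
    · right
      simp only [hh] at h0
      rw [if_neg hc, sub_zero] at h0
      rcases mul_eq_zero.1 h0 with h1 | h1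
      · have := pow_eq_zero_iff (two_ne_zero) |>.1 h1
        linarith
      · linarith
  -- coordinates of the all-one vector
  set c : Fin n → ℝ := Uᵀ.mulVec (fun _ => 1) with hc
  have hNform : N = ∑ i, γ i * c i ^ 2 := by
    rw [hc, ← u1_form hG, hN, dotProduct]
    apply sum_congr rfl
    intro i _
    rw [Matrix.mulVec, dotProduct, one_mul]
    exact sum_congr rfl fun j _ => (mul_one _).symm
  have hcn : ∑ i, c i ^ 2 = n := by
    rw [hc, u1_norm hU2]
    simp
  -- the hypothesis in eigencoordinates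
  have hH : ∀ w : Fin n → ℝ, ∑ i, w i * c i = 0 → 0 ≤ ∑ i, γ i * w i ^ 2 := by
    intro w hw
    have h1 := hperp (U.mulVec w) ?_
    · rw [u1_form hG, Matrix.mulVec_mulVec, hU1, Matrix.one_mulVec] at h1
      exact h1
    · have e : ∑ i, U.mulVec w i = (fun _ => 1) ⬝ᵥ U.mulVec w := by
        rw [dotProduct]; simp
      rw [e, Matrix.dotProduct_mulVec, ← Matrix.mulVec_transpose, ← hc, dotProduct, ← hw]
      exact sum_congr rfl fun i _ => mul_comm _ _
  -- the final contradiction
  have final : 2 * (n : ℝ) ≤ S → N ≤ 2 * n → False := by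
    intro h1 h2
    have hsq : ∀ i j, G i j ^ 2 ≤ G i j := by
      intro i j
      by_cases hij : i = j
      · subst hij
        rw [hdiag]; norm_num
      · nlinarith [hpos i j hij, hlt i j hij]
    have hz : ∀ i j, i ≠ j → G i j = 0 := by
      by_contra hcon
      push Not at hcon
      obtain ⟨i, j, hij, h0⟩ := hcon
      have hlt' : S < N := by
        rw [hS, hN]
        apply sum_lt_sum
        · intro a _
          exact sum_le_sum fun b _ => hsq a b
        · refine ⟨i, mem_univ _, ?_⟩
          apply sum_lt_sum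
          · intro b _
            exact hsq i b
          · refine ⟨j, mem_univ _, ?_⟩
            have h3 : 0 < G i j := lt_of_le_of_ne (hpos i j hij) (Ne.symm h0)
            nlinarith [hlt i j hij]
      linarith
    have hSn : S = n := by
      rw [hS]
      have : ∀ i, ∑ j, G i j ^ 2 = 1 := by
        intro i
        rw [sum_eq_single i]
        · rw [hdiag]; norm_num
        · intro j _ hj
          rw [hz i j (Ne.symm hj)]; norm_num
        · intro h; exact absurd (mem_univ _) h
      simp only [this]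
      simp
    have hd0 : (0 : ℝ) ≤ d := Nat.cast_nonneg _
    linarith
  by_cases hneg : ∃ a, γ a < 0
  · obtain ⟨a, ha⟩ := hneg
    set ν : ℝ := -γ a with hν
    have hνpos : 0 < ν := by rw [hν]; linarith
    -- (★)
    have star0 : ∀ j, j ≠ a → 0 ≤ γ j * c a ^ 2 - ν * c j ^ 2 := by
      intro j hj
      have h1 := hH (fun i => if i = a then c j else if i = j then - c a else 0) ?_
      · rw [u1_split _ (Ne.symm hj)] at h1
        have h2 : ∑ i ∈ (univ.erase a).erase j,
            γ i * (if i = a then c j else if i = j then - c a else 0) ^ 2 = 0 := by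
          apply sum_eq_zero
          intro i hi
          rw [mem_erase, mem_erase] at hi
          rw [if_neg hi.2.1, if_neg hi.1]
          ring
        rw [h2, if_pos rfl, if_neg hj, if_pos rfl] at h1
        rw [hν]
        linarith
      · rw [u1_split _ (Ne.symm hj)]
        have h2 : ∑ i ∈ (univ.erase a).erase j,
            (if i = a then c j else if i = j then - c a else 0) * c i = 0 := by
          apply sum_eq_zero
          intro i hi
          rw [mem_erase, mem_erase] at hi
          rw [if_neg hi.2.1, if_neg hi.1]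
          ring
        rw [h2, if_pos rfl, if_neg hj, if_pos rfl]
        ring
    have hca : c a ≠ 0 := by
      intro h0
      have h1 := hH (fun i => if i = a then 1 else 0) ?_
      · rw [sum_eq_single a] at h1
        · rw [if_pos rfl] at h1
          linarith
        · intro i _ hi
          rw [if_neg hi]; ring
        · intro h; exact absurd (mem_univ _) h
      · rw [sum_eq_single a]
        · rw [if_pos rfl, h0]; ring
        · intro i _ hi
          rw [if_neg hi]; ring
        · intro h; exact absurd (mem_univ _) h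
    have hca2 : 0 < c a ^ 2 := by positivity
    have hothers : ∀ j, j ≠ a → 0 ≤ γ j := by
      intro j hj
      by_contra hcon
      push Not at hcon
      have h1 := star0 j hj
      have h2 : γ j * c a ^ 2 < 0 := mul_neg_of_neg_of_pos hcon hca2
      have h3 : 0 ≤ ν * c j ^ 2 := by positivity
      linarith
    -- Perron
    obtain ⟨j, hj⟩ : ∃ j, ν + 2 ≤ γ j := by
      by_contra hcon
      push Not at hcon
      set p : Fin n → ℝ := fun k => |U k a| with hp
      have hy : Uᵀ.mulVec (fun k => U k a) = fun i => if i = a then 1 else 0 := by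
        funext i
        have h1 := congrFun (congrFun hU1 i) a
        rw [Matrix.mul_apply] at h1
        rw [Matrix.mulVec, dotProduct, h1, Matrix.one_apply]
      have hy2 : ∑ k, U k a ^ 2 = 1 := by
        have h1 := u1_norm hU2 (fun k => U k a)
        rw [hy] at h1
        rw [← h1]
        simp
      have hyG : (fun k => U k a) ⬝ᵥ (G.mulVec fun k => U k a) = -ν := by
        rw [u1_form hG, hy]
        simp only
        rw [sum_eq_single a]
        · rw [if_pos rfl, hν]; ring
        · intro i _ hi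
          rw [if_neg hi]; ring
        · intro h; exact absurd (mem_univ _) h
      have hpG : ν + 2 ≤ p ⬝ᵥ (G.mulVec p) := by
        have e1 : p ⬝ᵥ (G.mulVec p) = ∑ k, ∑ l, p k * (G k l * p l) := by
          rw [dotProduct]
          apply sum_congr rfl
          intro k _
          rw [Matrix.mulVec, dotProduct, mul_sum]
        have e2 : (fun k => U k a) ⬝ᵥ (G.mulVec fun k => U k a) =
            ∑ k, ∑ l, U k a * (G k l * U l a) := by
          rw [dotProduct]
          apply sum_congr rfl
          intro k _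
          rw [Matrix.mulVec, dotProduct, mul_sum]
        have e3 : ∑ k, ∑ l, ((if k = l then 2 * U k a ^ 2 else 0) - U k a * (G k l * U l a)) ≤
            ∑ k, ∑ l, p k * (G k l * p l) := by
          apply sum_le_sum
          intro k _
          apply sum_le_sum
          intro l _
          by_cases hkl : k = l
          · subst hkl
            rw [if_pos rfl, hdiag, hp]
            simp only [one_mul]
            have h3 : |U k a| * |U k a| = U k a ^ 2 := by rw [← sq, sq_abs]
            rw [h3]
            apply le_of_eq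
            ring
          · rw [if_neg hkl, hp]
            simp only
            have h1 : -(U k a * U l a) ≤ |U k a| * |U l a| := by
              rw [← abs_mul]
              exact neg_le_abs _
            have h2 := mul_le_mul_of_nonneg_left h1 (hpos k l hkl)
            nlinarith
        have e4 : ∑ k, ∑ l, ((if k = l then 2 * U k a ^ 2 else 0) - U k a * (G k l * U l a)) =
            2 + ν := by
          simp only [sum_sub_distrib]
          rw [← e2, hyG]
          have : ∑ k, ∑ l, (if k = l then 2 * U k a ^ 2 else 0) = 2 := by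
            have : ∀ k, ∑ l, (if k = l then 2 * U k a ^ 2 else 0) = 2 * U k a ^ 2 := by
              intro k
              simp
            simp only [this]
            rw [← mul_sum, hy2]
            norm_num
          rw [this]
          ring
        rw [e1]
        linarith
      set q : Fin n → ℝ := Uᵀ.mulVec p with hq
      have hq1 : ∑ i, q i ^ 2 = 1 := by
        rw [hq, u1_norm hU2, ← hy2]
        apply sum_congr rfl
        intro k _
        rw [hp]
        exact sq_abs _
      have hq2 : ν + 2 ≤ ∑ i, γ i * q i ^ 2 := by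
        rw [hq, ← u1_form hG]
        exact hpG
      have hq3 : ∑ i, (ν + 2 - γ i) * q i ^ 2 ≤ 0 := by
        simp only [sub_mul, sum_sub_distrib, ← mul_sum]
        rw [hq1]
        linarith
      have hq4 : ∀ i, 0 ≤ (ν + 2 - γ i) * q i ^ 2 := fun i =>
        mul_nonneg (by linarith [hcon i]) (sq_nonneg _)
      have hq5 : ∑ i, (ν + 2 - γ i) * q i ^ 2 = 0 :=
        le_antisymm hq3 (sum_nonneg fun i _ => hq4 i)
      have hq6 : ∀ i, q i ^ 2 = 0 := by
        intro i
        have h1 := (sum_eq_zero_iff_of_nonneg fun i _ => hq4 i).1 hq5 i (mem_univ _)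
        rcases mul_eq_zero.1 h1 with h2 | h2
        · linarith [hcon i]
        · exact h2
      rw [sum_congr rfl fun i _ => hq6 i] at hq1
      simp at hq1
    have hja : a ≠ j := by
      rintro rfl
      linarith
    have hga : γ a ≠ 0 := ha.ne
    have hgj : γ j ≠ 0 := by
      intro h0
      linarith
    have h2le : 4 ≤ h a + h j := by
      simp only [hh]
      rw [if_neg hga, if_neg hgj]
      have h1 := u1_mono hνpos hj
      have e : γ a = -ν := by rw [hν]; ring
      rw [e]
      linarith
    have hrank' : (G.rank : ℝ) ≤ d + 2 := by exact_mod_cast hrank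
    have hsum4 : ∑ i, h i ≤ 4 := by
      rw [hsumh]
      linarith
    have hoth : ∀ i, i ≠ a → i ≠ j → 0 ≤ h i := fun i hi _ => hnonneg i (hothers i hi)
    have hz := u1_two_eq h hja hoth (hsum4.trans h2le)
    have hle4 : h a + h j ≤ 4 := (u1_two_le h hja hoth).trans hsum4
    have hgj2 : γ j = ν + 2 := by
      apply u1_mono_eq hνpos hj
      simp only [hh] at hle4
      rw [if_neg hga, if_neg hgj] at hle4
      have e : γ a = -ν := by rw [hν]; ring
      rw [e] at hle4
      linarith
    have h02 : ∀ i, i ≠ a → i ≠ j → γ i = 0 ∨ γ i = 2 := fun i hi hi' =>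
      hzero i (hothers i hi) (hz i hi hi')
    have ea : γ a = -ν := by rw [hν]; ring
    apply final
    · have h1 := u1_two_le (fun i => γ i ^ 2 - 2 * γ i) hja (fun i hi hi' => by
        rcases h02 i hi hi' with h3 | h3 <;> rw [h3] <;> norm_num)
      simp only [sum_sub_distrib, ← mul_sum] at h1
      rw [t2, t1, ea, hgj2] at h1
      nlinarith
    · have h1 := u1_two_le (fun i => (2 - γ i) * c i ^ 2) hja (fun i hi hi' => by
        rcases h02 i hi hi' with h3 | h3 <;> rw [h3]
        · positivity
        · norm_num)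
      simp only [sub_mul, sum_sub_distrib, ← mul_sum] at h1
      rw [hcn, ← hNform] at h1
      have h2 := star0 j (Ne.symm hja)
      rw [hgj2] at h2
      rw [ea, hgj2] at h1
      nlinarith
  · push Not at hneg
    have hP : ∀ x : Fin n → ℝ, 0 ≤ x ⬝ᵥ (G.mulVec x) := by
      intro x
      rw [u1_form hG]
      exact sum_nonneg fun i _ => mul_nonneg (hneg i) (sq_nonneg _)
    have hrank' : (G.rank : ℝ) ≤ d + 1 := by exact_mod_cast hpsd hP
    have hs0 : ∑ i, h i = 0 := by
      apply le_antisymm _ (sum_nonneg fun i _ => hnonneg i (hneg i))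
      rw [hsumh]
      linarith
    have hz : ∀ i, h i = 0 := fun i =>
      (sum_eq_zero_iff_of_nonneg fun i _ => hnonneg i (hneg i)).1 hs0 i (mem_univ _)
    have h02 : ∀ i, γ i = 0 ∨ γ i = 2 := fun i => hzero i (hneg i) (hz i)
    apply final
    · have h1 : ∀ i, γ i ^ 2 = 2 * γ i := by
        intro i
        rcases h02 i with h3 | h3 <;> rw [h3] <;> norm_num
      rw [← t2]
      simp only [h1, ← mul_sum]
      rw [t1]
    · rw [hNform, ← hcn, mul_sum]
      apply sum_le_sum
      intro i _
      rcases h02 i with h3 | h3 <;> rw [h3]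
      · nlinarith [sq_nonneg (c i)]

end AE
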