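import Pool.Agent.MP_8e9e20_co.AE.Def
import Pool.Agent.MP_8e9e20_co.AE.UpA

/-!
[AE-U2] the upper bound `|V| ≤ 2 d + 1`.
Enumerate `V` as `v : Fin n → ℝ^d` (injective). `G i j = 1 - ‖v i - v j‖^2 = 1 - s i - s j + 2 ⟪v i, v j⟫`, `s i = ‖v i‖^2`.
* `0 ≤ G i j` as all distances are `≤ diam = 1`; `G i j < 1` for `i ≠ j`; `G i j = 0` iff the distance is `1`
  (distances are nonnegative), so the triangle condition is the almost-equidistance.
* rank: `G x = (Σ x_j) (1 - s) - (Σ s_j x_j) 1 + 2 (⟪v i, Σ x_j v_j⟫)_i`, so the range of `G` is contained in the span of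
  `1 - s`, `1` and the range of `w ↦ (⟪v i, w⟫)_i` on `ℝ^d`: dimension `≤ d + 2` (or: `G = A * C` with `A : n × (d+2)`; `Matrix.rank_mul_le`).
* if `Σ x_i = 0` then `xᵀGx = 2 ‖Σ x_i v_i‖^2 ≥ 0`.
* if `G` is PSD: on the subspace `K₀ = {x : Σ x_i = 0, Σ x_i v_i = 0}` (dimension `≥ n - d - 1`) the form vanishes, so `G x = 0`
  (PSD: `xᵀGx=0 → Gx=0`; Mathlib `Matrix.PosSemidef.dotProduct_mulVec_zero_iff` or Cauchy-Schwarz), hence the rank is `≤ d + 1` (rank-nullity).
  Alternative: `0 ≤ (x+εy)ᵀG(x+εy)` for all `ε`.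
-/

namespace AE

open scoped InnerProductSpace

/-- the matrix of a family of points -/
noncomputable def u2G {d n : ℕ} (v : Fin n → EuclideanSpace ℝ (Fin d)) : Matrix (Fin n) (Fin n) ℝ :=
  fun i j => 1 - ‖v i - v j‖ ^ 2

theorem u2G_apply {d n : ℕ} (v : Fin n → EuclideanSpace ℝ (Fin d)) (i j : Fin n) :
    u2G v i j = 1 - ‖v i‖ ^ 2 - ‖v j‖ ^ 2 + 2 * ⟪v i, v j⟫_ℝ := by
  unfold u2G
  rw [norm_sub_sq_real]
  ring

theorem u2G_symm {d n : ℕ} (v : Fin n → EuclideanSpace ℝ (Fin d)) : (u2G v).IsSymm := by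
  ext i j
  simp only [Matrix.transpose_apply, u2G]
  rw [norm_sub_rev]

theorem u2G_mulVec {d n : ℕ} (v : Fin n → EuclideanSpace ℝ (Fin d)) (x : Fin n → ℝ)
    (hx : ∑ i, x i = 0) (i : Fin n) :
    (u2G v).mulVec x i = -(∑ j, ‖v j‖ ^ 2 * x j) + 2 * ⟪v i, ∑ j, x j • v j⟫_ℝ := by
  have h1 : (u2G v).mulVec x i = ∑ j, u2G v i j * x j := rfl
  rw [h1, inner_sum]
  have h2 : ∀ j, u2G v i j * x j = (1 - ‖v i‖ ^ 2) * x j - ‖v j‖ ^ 2 * x j +
      2 * ⟪v i, x j • v j⟫_ℝ := by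
    intro j
    rw [u2G_apply, real_inner_smul_right]
    ring
  rw [Finset.sum_congr rfl (fun j _ => h2 j), Finset.sum_add_distrib, Finset.sum_sub_distrib,
    ← Finset.mul_sum, ← Finset.mul_sum, hx]
  ring

theorem u2G_form {d n : ℕ} (v : Fin n → EuclideanSpace ℝ (Fin d)) (x : Fin n → ℝ)
    (hx : ∑ i, x i = 0) :
    x ⬝ᵥ (u2G v).mulVec x = 2 * ‖∑ j, x j • v j‖ ^ 2 := by
  have h1 : x ⬝ᵥ (u2G v).mulVec x = ∑ i, x i * (u2G v).mulVec x i := rfl
  rw [h1]
  have h2 : ∀ i, x i * (u2G v).mulVec x i = -(∑ j, ‖v j‖ ^ 2 * x j) * x i +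
      2 * ⟪x i • v i, ∑ j, x j • v j⟫_ℝ := by
    intro i
    rw [u2G_mulVec v x hx, real_inner_smul_left]
    ring
  rw [Finset.sum_congr rfl (fun i _ => h2 i), Finset.sum_add_distrib, ← Finset.mul_sum,
    ← Finset.mul_sum, hx, ← sum_inner, real_inner_self_eq_norm_sq]
  ring

theorem u2G_rank {d n : ℕ} (v : Fin n → EuclideanSpace ℝ (Fin d)) :
    (u2G v).rank ≤ d + 2 := by
  let A : Matrix (Fin n) (Fin 2 ⊕ Fin d) ℝ := fun i s =>
    Sum.elim (fun t : Fin 2 => if t = 0 then 1 - ‖v i‖ ^ 2 else -1) (fun k => 2 * v i k) s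
  let C : Matrix (Fin 2 ⊕ Fin d) (Fin n) ℝ := fun s j =>
    Sum.elim (fun t : Fin 2 => if t = 0 then 1 else ‖v j‖ ^ 2) (fun k => v j k) s
  have h1 : u2G v = A * C := by
    ext i j
    rw [u2G_apply, Matrix.mul_apply, Fintype.sum_sum_type, Fin.sum_univ_two]
    have h2 : ∀ k : Fin d, A i (Sum.inr k) * C (Sum.inr k) j = 2 * (v i k * v j k) := by
      intro k
      simp only [A, C, Sum.elim_inr]
      ring
    rw [Finset.sum_congr rfl (fun k _ => h2 k), ← Finset.mul_sum]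
    have h3 : ⟪v i, v j⟫_ℝ = ∑ k, v i k * v j k := by
      rw [PiLp.inner_apply]
      refine Finset.sum_congr rfl (fun k _ => ?_)
      simp [mul_comm]
    rw [h3]
    simp only [A, C, Sum.elim_inl]
    simp
    ring
  rw [h1]
  refine (Matrix.rank_mul_le_left A C).trans ((Matrix.rank_le_card_width A).trans ?_)
  rw [Fintype.card_sum, Fintype.card_fin, Fintype.card_fin]
  omega

theorem u2G_psd {d n : ℕ} (v : Fin n → EuclideanSpace ℝ (Fin d))
    (h : ∀ x : Fin n → ℝ, 0 ≤ x ⬝ᵥ (u2G v).mulVec x) : (u2G v).rank ≤ d + 1 := by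
  have hpsd : (u2G v).PosSemidef := by
    refine Matrix.PosSemidef.of_dotProduct_mulVec_nonneg ?_ (fun x => ?_)
    · rw [Matrix.IsHermitian, Matrix.conjTranspose_eq_transpose_of_trivial]
      exact u2G_symm v
    · rw [star_trivial]
      exact h x
  let Φ : (Fin n → ℝ) →ₗ[ℝ] ℝ × EuclideanSpace ℝ (Fin d) :=
    { toFun := fun x => (∑ i, x i, ∑ i, x i • v i)
      map_add' := fun x y => by
        simp only [Pi.add_apply, Finset.sum_add_distrib, add_smul, Prod.mk_add_mk]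
      map_smul' := fun a x => by
        simp only [Pi.smul_apply, smul_eq_mul, RingHom.id_apply, Prod.smul_mk, Finset.mul_sum,
          Finset.smul_sum, mul_smul] }
  have hker : LinearMap.ker Φ ≤ LinearMap.ker (u2G v).mulVecLin := by
    intro x hx
    rw [LinearMap.mem_ker] at hx ⊢
    have h1 : ∑ i, x i = 0 := congrArg Prod.fst hx
    have h2 : ∑ i, x i • v i = 0 := congrArg Prod.snd hx
    have h3 : star x ⬝ᵥ (u2G v).mulVec x = 0 := by
      rw [star_trivial, u2G_form v x h1, h2, norm_zero]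
      ring
    exact (hpsd.dotProduct_mulVec_zero_iff x).1 h3
  have h1 := LinearMap.finrank_range_add_finrank_ker Φ
  have h2 := LinearMap.finrank_range_add_finrank_ker (u2G v).mulVecLin
  have h3 := Submodule.finrank_mono hker
  have h4 : Module.finrank ℝ (LinearMap.range Φ) ≤ d + 1 := by
    refine (Submodule.finrank_le _).trans ?_
    rw [Module.finrank_prod, Module.finrank_self, finrank_euclideanSpace_fin]
    omega
  have h5 : (u2G v).rank = Module.finrank ℝ (LinearMap.range (u2G v).mulVecLin) := rfl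
  omega

theorem upper_bound {d : ℕ} (V : Finset (EuclideanSpace ℝ (Fin d))) (h : IsAEDiam V) :
    V.card ≤ 2 * d + 1 := by
  obtain ⟨hae, hdiam⟩ := h
  let f : Fin V.card ≃ V := V.equivFin.symm
  let v : Fin V.card → EuclideanSpace ℝ (Fin d) := fun i => (f i : EuclideanSpace ℝ (Fin d))
  have hv : ∀ i, v i ∈ V := fun i => (f i).2
  have hinj : ∀ i j, i ≠ j → v i ≠ v j := fun i j hij h => hij (f.injective (Subtype.ext h))
  have hle : ∀ i j, ‖v i - v j‖ ≤ 1 := by
    intro i j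
    rw [← dist_eq_norm, ← hdiam]
    exact Metric.dist_le_diam_of_mem V.finite_toSet.isBounded (hv i) (hv j)
  have h0 : ∀ i j, dist (v i) (v j) = 1 → u2G v i j = 0 := by
    intro i j hd
    rw [dist_eq_norm] at hd
    unfold u2G
    rw [hd]
    ring
  refine upper_matrix (u2G v) (u2G_symm v) ?_ ?_ ?_ ?_ (u2G_rank v) ?_ (u2G_psd v)
  · intro i
    simp [u2G]
  · intro i j _
    unfold u2G
    have := hle i j
    have h1 := norm_nonneg (v i - v j)
    nlinarith
  · intro i j hij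
    unfold u2G
    have h1 : 0 < ‖v i - v j‖ := norm_pos_iff.2 (sub_ne_zero.2 (hinj i j hij))
    have : 0 < ‖v i - v j‖ ^ 2 := by positivity
    linarith
  · intro i j k hij hik hjk
    rcases hae (v i) (hv i) (v j) (hv j) (v k) (hv k) (hinj i j hij) (hinj i k hik)
      (hinj j k hjk) with h1 | h1 | h1
    · exact Or.inl (h0 _ _ h1)
    · exact Or.inr (Or.inl (h0 _ _ h1))
    · exact Or.inr (Or.inr (h0 _ _ h1))
  · intro x hx
    rw [u2G_form v x hx]
    positivity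

end AE
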